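import Pool.Agent.Lib.MP_1a91b9_ntY.Iso
import Pool.Agent.Lib.MP_1a91b9_nuX.GL.EllA

/-!
# The forms of the curve
-/

set_option autoImplicit false

namespace Pool.Agent.Lib.MP_1a91b9_ntY

open NumberField IsDedekindDomain WeierstrassCurve
  Pool.Agent.Lib.MP_1a91b9_nt Pool.Agent.Lib.MP_1a91b9_nuT
open Pool.Agent.Lib.MP_1a91b9_nuX.DB Pool.Agent.Lib.MP_1a91b9_nuX.GL
  Pool.Agent.Lib.MP_1a91b9_nuX.PG Pool.Agent.Lib.MP_1a91b9_nuX.PH
open Pool.Agent.Lib.MP_1a91b9_nuX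
open Pool.Agent.Lib.MP_1a91b9_ntM

universe u

variable [CD] {F : Type u} [Field F] [NumberField F] [Algebra K F]

theorem EF_AB : EF Kb = Sh Kb ((CD.A : ℤ) : Kb) ((CD.B : ℤ) : Kb) := by
  refine WeierstrassCurve.ext ?_ ?_ ?_ ?_ ?_
  · exact map_zero _
  · exact map_zero _
  · exact map_zero _
  · exact map_intCast _ _
  · exact map_intCast _ _

/-- the curve `E` -/
theorem fm_AB : Fm (Sh F ((CD.A : ℤ) : F) ((CD.B : ℤ) : F)) := fm_E

/-- the quadratic twists of `E` -/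
theorem fm_ABd {δ : F} (hδ : δ ≠ 0) :
    Fm (Sh F (δ ^ 2 * ((CD.A : ℤ) : F)) (δ ^ 3 * ((CD.B : ℤ) : F))) := fm_twist hδ fm_AB

/-- the forms from a scaling over the algebraic closure -/
theorem fm_of {a b : F} (h : ∀ ι : F →ₐ[K] Kb, ∃ s : Kb, s ≠ 0 ∧ s ^ 4 * ((CD.A : ℤ) : Kb) = ι a ∧
    s ^ 6 * ((CD.B : ℤ) : Kb) = ι b) : Fm (Sh F a b) := by
  obtain ⟨ι⟩ := Pool.Agent.Lib.MP_1a91b9_nuX.PH.exists_emb F
  obtain ⟨s, hs, h4, h6⟩ := h ι
  refine ⟨ι, Ds s hs, ?_⟩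
  rw [EF_AB, Ds_Sh, h4, h6]
  refine WeierstrassCurve.ext ?_ ?_ ?_ rfl rfl
  · exact (map_zero _).symm
  · exact (map_zero _).symm
  · exact (map_zero _).symm

/-- `j = 0` -/
theorem fm_j0 (hA : CD.A = 0) {b : F} (hb : b ≠ 0) : Fm (Sh F 0 b) := by
  refine fm_of fun ι => ?_
  have hc : CharZero Kb := charZero_Kb
  have hB : ((CD.B : ℤ) : Kb) ≠ 0 := by
    rw [Ne, Int.cast_eq_zero]
    intro h0
    have h := CD.disc
    rw [hA, h0] at h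
    exact h (by norm_num)
  obtain ⟨s, hs⟩ := IsAlgClosed.exists_pow_nat_eq (ι b / ((CD.B : ℤ) : Kb)) (n := 6) (by norm_num)
  have hb' : ι b ≠ 0 := by
    rw [Ne, map_eq_zero]
    exact hb
  refine ⟨s, ?_, ?_, ?_⟩
  · rintro rfl
    rw [zero_pow (by norm_num), eq_comm, div_eq_zero_iff] at hs
    exact hs.elim hb' hB
  · rw [hA, Int.cast_zero, mul_zero, map_zero]
  · rw [hs, div_mul_cancel₀ _ hB]

/-- `j = 1728` -/
theorem fm_j1728 (hB : CD.B = 0) {a : F} (ha : a ≠ 0) : Fm (Sh F a 0) := by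
  refine fm_of fun ι => ?_
  have hc : CharZero Kb := charZero_Kb
  have hA : ((CD.A : ℤ) : Kb) ≠ 0 := by
    rw [Ne, Int.cast_eq_zero]
    intro h0
    have h := CD.disc
    rw [hB, h0] at h
    exact h (by norm_num)
  obtain ⟨s, hs⟩ := IsAlgClosed.exists_pow_nat_eq (ι a / ((CD.A : ℤ) : Kb)) (n := 4) (by norm_num)
  have ha' : ι a ≠ 0 := by
    rw [Ne, map_eq_zero]
    exact ha
  refine ⟨s, ?_, ?_, ?_⟩
  · rintro rfl
    rw [zero_pow (by norm_num), eq_comm, div_eq_zero_iff] at hs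
    exact hs.elim ha' hA
  · rw [hs, div_mul_cancel₀ _ hA]
  · rw [hB, Int.cast_zero, mul_zero, map_zero]

omit F [Field F] [NumberField F] [Algebra K F] in
/-- the hypothesis `EllK` for the nine fields -/
theorem ellK_cm (h : ((CD.tr, CD.nm) : ℤ × ℤ) ∈ UF.qList ∨ (CD.tr = 0 ∧ CD.nm = 1) ∨
    (CD.tr = 1 ∧ CD.nm = 1)) : EllK := by
  rcases h with h | ⟨h1, h2⟩ | ⟨h1, h2⟩
  · exact GL.ellK_two h
  · exact GL.ellK_four h1 h2
  · exact GL.ellK_six h1 h2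

/-- a curve with a quadratic term which becomes a quadratic twist of `E` after a translation -/
theorem fm_q {p a b δ : F} (hδ : δ ≠ 0) (ha : a - p ^ 2 / 3 = δ ^ 2 * ((CD.A : ℤ) : F))
    (hb : b - p * a / 3 + 2 * p ^ 3 / 27 = δ ^ 3 * ((CD.B : ℤ) : F)) :
    Fm (⟨0, p, 0, a, b⟩ : WeierstrassCurve F) := by
  have h1 := fm_ABd (F := F) hδ
  rw [← ha, ← hb] at h1
  refine fm_iso (⟨1, -p / 3, 0, 0⟩ : VariableChange F)⁻¹ ?_ h1
  rw [← shift_smul p a b, inv_smul_smul]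

end Pool.Agent.Lib.MP_1a91b9_ntY
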