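import Pool.Agent.Lib.MP_1a91b9_ntY.Fms
import Pool.Agent.Lib.MP_1a91b9_ntN.F.Cd3

/-!
# The curves `y² = x³ + b d³` over the multiquadratic extensions of `ℚ(√-3)`
-/

set_option autoImplicit false

namespace Pool.Agent.Lib.MP_1a91b9_ntY

open NumberField WeierstrassCurve Pool.Agent.Lib.MP_1a91b9_nuT
open Pool.Agent.Lib.MP_1a91b9_nuX.LG (LConcl)
open Pool.Agent.Lib.MP_1a91b9_nuX.GL (EllK)
open Pool.Agent.Lib.MP_1a91b9_nuX.PH (Fm)
open Pool.Agent.Lib.MP_1a91b9_ntN.G (MQT)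
open Pool.Agent.Lib.MP_1a91b9_ntN

theorem ellK3 : EllK := ellK_cm (Or.inr (Or.inr ⟨cdtr_eq3, cdnm_eq3⟩))

theorem fm_K3 {b : K3} (hb : b ≠ 0) : Fm (Sh K3 0 b) := fm_j0 cdA_eq3 hb

/-- the curve `y² = x³ + b d³` over `F` -/
noncomputable def Wb3 (F : Type*) [Field F] [Algebra K3 F] (b : K3) (d : 𝓞 K3) :
    WeierstrassCurve F := ⟨0, 0, 0, 0, algebraMap K3 F ((d : K3) ^ 3 * b)⟩

theorem Wb3_eq (F : Type*) [Field F] [Algebra K3 F] (b : K3) (d : 𝓞 K3) :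
    Wb3 F b d = Tdj F 0 b d := by
  rw [Tdj_def, mul_zero, map_zero]
  rfl

/-- **From `K = ℚ(√-3)` to a multiquadratic extension of `K`**, the curves `y² = x³ + b d³`. -/
theorem chain3 {b : K3} (hb : b ≠ 0) {F : Type} [Field F] [NumberField F] [Algebra K3 F]
    {A : List (𝓞 K3)} (h : MQT K3 F A) (d : 𝓞 K3) (hd : d ≠ 0)
    (hA : ∀ e ∈ A, LConcl (Wb3 K3 b (e * d)) ∧ Finite (Wb3 K3 b (e * d)).toAffine.Point) :
    LConcl (Wb3 F b d) ∧ Finite (Wb3 F b d).toAffine.Point := by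
  rw [Wb3_eq]
  refine chainJ ellK3 (fm_K3 hb) h d hd fun e he => ?_
  rw [← Wb3_eq]
  exact hA e he

end Pool.Agent.Lib.MP_1a91b9_ntY
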