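import Pool.Agent.Lib.MP_1a91b9_ntN.G.Cls

/-!
# The extensions of a number field `K ∋ i` generated by fourth roots of elements of `K`

`QT K F A` : `F` is obtained from the number field `K` by adjoining successively square roots of
elements of `𝓞 K` and square roots of square roots of elements of `𝓞 K`; the list `A` consists of
representatives of the classes (modulo fourth powers of `K`) of the elements of `K` which are fourth
powers in `F`.
`QT.exists_of` : every finite extension generated by fourth roots of elements of `K` is of this kind;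
`QT.ok` : the length of `A` is the degree, the elements of `A` are not zero, they are fourth powers in
`F` and no quotient of two of them is a fourth power in `K` (here `K` contains a square root of `-1`).
-/

set_option autoImplicit false

namespace Pool.Agent.Lib.MP_1a91b9_ntY

open NumberField
open Pool.Agent.Lib.MP_1a91b9_ntN.G (finrank_two')

noncomputable section

/-- Towers of quadratic extensions above `K` generated by fourth roots of elements of its ring of
integers. -/
inductive QT (K : Type) [Field K] [NumberField K] :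
    ∀ (F : Type) [Field F] [NumberField F] [Algebra K F], List (𝓞 K) → Prop
  | base (F : Type) [Field F] [NumberField F] [Algebra K F]
      (h : Function.Bijective (algebraMap K F)) : QT K F [1]
  | two (F F' : Type) [Field F] [NumberField F] [Algebra K F] [Field F'] [NumberField F']
      [Algebra K F'] [Algebra F F'] [IsScalarTower K F F'] (A : List (𝓞 K)) (a : 𝓞 K)
      (x : F') (hx : x ^ 2 = algebraMap K F' a) (hn : ¬ ∃ y : F, algebraMap F F' y = x)
      (hgen : ∀ z : F', ∃ b c : F, z = algebraMap F F' b + algebraMap F F' c * x)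
      (h : QT K F A) : QT K F' (A ++ A.map (a ^ 2 * ·))
  | four (F F' : Type) [Field F] [NumberField F] [Algebra K F] [Field F'] [NumberField F']
      [Algebra K F'] [Algebra F F'] [IsScalarTower K F F'] (A : List (𝓞 K)) (a : 𝓞 K) (y : F)
      (x : F') (hy : y ^ 2 = algebraMap K F a) (hx : x ^ 2 = algebraMap F F' y)
      (hn : ¬ ∃ y : F, algebraMap F F' y = x)
      (hgen : ∀ z : F', ∃ b c : F, z = algebraMap F F' b + algebraMap F F' c * x)
      (h : QT K F A) : QT K F' (A ++ A.map (a * ·))

variable {K : Type} [Field K] [NumberField K]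

/-- The class does not depend on the field up to isomorphism. -/
theorem QT.congr {F : Type} [Field F] [NumberField F] [Algebra K F] {A : List (𝓞 K)}
    (h : QT K F A) {F' : Type} [Field F'] [NumberField F'] [Algebra K F'] (e : F ≃ₐ[K] F') :
    QT K F' A := by
  cases h with
  | base _ hb =>
    refine QT.base F' ?_
    have h1 : (algebraMap K F' : K → F') = e ∘ algebraMap K F :=
      funext fun y => (e.commutes y).symm
    rw [h1]
    exact e.bijective.comp hb
  | two F₀ _ A₀ a x hx hn hgen h0 =>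
    let _ : Algebra F₀ F' := ((e : F →+* F').comp (algebraMap F₀ F)).toAlgebra
    have hal : ∀ y : F₀, algebraMap F₀ F' y = e (algebraMap F₀ F y) := fun _ => rfl
    have : IsScalarTower K F₀ F' := IsScalarTower.of_algebraMap_eq fun y => by
      rw [hal, ← IsScalarTower.algebraMap_apply, e.commutes]
    refine QT.two F₀ F' A₀ a (e x) ?_ ?_ ?_ h0
    · rw [← map_pow, hx, e.commutes]
    · rintro ⟨y, hy⟩
      exact hn ⟨y, e.injective hy⟩
    · intro z
      obtain ⟨b, c, hbc⟩ := hgen (e.symm z)
      refine ⟨b, c, ?_⟩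
      rw [hal, hal, ← map_mul, ← map_add, ← hbc, e.apply_symm_apply]
  | four F₀ _ A₀ a y x hy hx hn hgen h0 =>
    let _ : Algebra F₀ F' := ((e : F →+* F').comp (algebraMap F₀ F)).toAlgebra
    have hal : ∀ y : F₀, algebraMap F₀ F' y = e (algebraMap F₀ F y) := fun _ => rfl
    have : IsScalarTower K F₀ F' := IsScalarTower.of_algebraMap_eq fun y => by
      rw [hal, ← IsScalarTower.algebraMap_apply, e.commutes]
    refine QT.four F₀ F' A₀ a y (e x) hy ?_ ?_ ?_ h0
    · rw [← map_pow, hx, hal]
    · rintro ⟨y, hy⟩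
      exact hn ⟨y, e.injective hy⟩
    · intro z
      obtain ⟨b, c, hbc⟩ := hgen (e.symm z)
      refine ⟨b, c, ?_⟩
      rw [hal, hal, ← map_mul, ← map_add, ← hbc, e.apply_symm_apply]

/-- The properties of the list `A`. -/
structure QTok (K : Type) [Field K] [NumberField K] (F : Type) [Field F] [Algebra K F] (A : List (𝓞 K)) : Prop where
  len : A.length = Module.finrank K F
  ne : ∀ a ∈ A, a ≠ 0
  pow : ∀ a ∈ A, ∃ y : F, y ^ 4 = algebraMap K F a
  pw : A.Pairwise fun a b : 𝓞 K => ¬ ∃ y : K, (a : K) = b * y ^ 4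

private theorem qt_sqrt {F : Type} [Field F] {i y u : F} (hi : i ^ 2 = -1) (h : y ^ 2 = u ^ 4) :
    ∃ z : F, z ^ 2 = y := by
  have h1 : y ^ 2 = (u ^ 2) ^ 2 := by rw [h]; ring
  rcases sq_eq_sq_iff_eq_or_eq_neg.1 h1 with h2 | h2
  · exact ⟨u, h2.symm⟩
  · exact ⟨i * u, by rw [mul_pow, hi, h2]; ring⟩

theorem QT.ok (hi : ∃ i : K, i ^ 2 = -1) {F : Type} [Field F] [NumberField F] [Algebra K F]
    {A : List (𝓞 K)} (h : QT K F A) : QTok K F A := by
  obtain ⟨i, hi⟩ := hi
  induction h with
  | base F hb =>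
    refine ⟨?_, ?_, ?_, List.pairwise_singleton _ _⟩
    · have e : K ≃ₗ[K] F := LinearEquiv.ofBijective (Algebra.linearMap K F) hb
      rw [List.length_singleton, ← e.finrank_eq, Module.finrank_self]
    · intro a ha
      rw [List.mem_singleton] at ha
      subst ha
      exact one_ne_zero
    · intro a ha
      rw [List.mem_singleton] at ha
      subst ha
      exact ⟨1, by rw [one_pow]; exact (map_one (algebraMap K F)).symm⟩
  | two F F' A a x hx hn hgen h0 ih =>
    have ha : a ≠ 0 := by
      rintro rfl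
      have h1 : x ^ 2 = 0 := hx.trans (map_zero (algebraMap K F'))
      exact hn ⟨0, by rw [map_zero, (pow_eq_zero_iff two_ne_zero).1 h1]⟩
    have haK : (a : K) ≠ 0 := by exact_mod_cast ha
    have hal : ∀ y : K, algebraMap K F' y = algebraMap F F' (algebraMap K F y) :=
      fun y => IsScalarTower.algebraMap_apply K F F' y
    have hiF : (algebraMap K F i) ^ 2 = -1 := by rw [← map_pow, hi, map_neg, map_one]
    have hcr : ∀ b ∈ A, ∀ c ∈ A, ¬ ∃ y : K, (b : K) = ((a ^ 2 * c : 𝓞 K) : K) * y ^ 4 := by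
      rintro b hb c hc ⟨y, hy⟩
      obtain ⟨β, hβ⟩ := ih.pow b hb
      obtain ⟨γ, hγ⟩ := ih.pow c hc
      have hbK : (b : K) ≠ 0 := by exact_mod_cast ih.ne b hb
      have hcK : (c : K) ≠ 0 := by exact_mod_cast ih.ne c hc
      have hγ0 : γ ≠ 0 := by
        rintro rfl
        rw [zero_pow (by norm_num)] at hγ
        exact hcK ((map_eq_zero _).1 hγ.symm)
      have hy0 : y ≠ 0 := by
        rintro rfl
        rw [zero_pow (by norm_num), mul_zero] at hy
        exact hbK hy
      have hyF : algebraMap K F y ≠ 0 := (map_ne_zero _).2 hy0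
      have e1 : ((a ^ 2 * c : 𝓞 K) : K) = (a : K) ^ 2 * c := by push_cast; rfl
      have h1 : (algebraMap K F a) ^ 2 = (β / (γ * algebraMap K F y)) ^ 4 := by
        rw [div_pow, mul_pow, hβ, hγ, hy, e1, map_mul, map_mul, map_pow, map_pow,
          eq_div_iff (mul_ne_zero ((map_ne_zero _).2 hcK) (pow_ne_zero 4 hyF))]
        ring
      obtain ⟨z, hz⟩ := qt_sqrt hiF h1
      have h2 : (algebraMap F F' z) ^ 2 = x ^ 2 := by rw [hx, hal, ← map_pow, hz]
      rcases sq_eq_sq_iff_eq_or_eq_neg.1 h2 with h3 | h3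
      · exact hn ⟨_, h3⟩
      · exact hn ⟨-z, by rw [map_neg, h3, neg_neg]⟩
    refine ⟨?_, ?_, ?_, ?_⟩
    · rw [List.length_append, List.length_map, ih.len, ← Module.finrank_mul_finrank K F F',
        finrank_two' hn hgen]
      ring
    · intro b hb
      rcases List.mem_append.1 hb with h1 | h1
      · exact ih.ne b h1
      · obtain ⟨c, hc, rfl⟩ := List.mem_map.1 h1
        exact mul_ne_zero (pow_ne_zero 2 ha) (ih.ne c hc)
    · intro b hb
      rcases List.mem_append.1 hb with h1 | h1
      · obtain ⟨y, hy⟩ := ih.pow b h1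
        exact ⟨algebraMap F F' y, by rw [← map_pow, hy, hal]⟩
      · obtain ⟨c, hc, rfl⟩ := List.mem_map.1 h1
        obtain ⟨y, hy⟩ := ih.pow c hc
        refine ⟨x * algebraMap F F' y, ?_⟩
        have e1 : ((a ^ 2 * c : 𝓞 K) : K) = (a : K) ^ 2 * c := by push_cast; rfl
        have e2 : x ^ 4 = (x ^ 2) ^ 2 := by ring
        rw [mul_pow, e2, hx, ← map_pow (algebraMap F F'), hy, ← hal, ← map_pow, ← map_mul]
        exact congrArg _ e1.symm
    · rw [List.pairwise_append]
      refine ⟨ih.pw, ?_, ?_⟩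
      · rw [List.pairwise_map]
        refine ih.pw.imp ?_
        rintro b c h1 ⟨y, hy⟩
        apply h1
        refine ⟨y, ?_⟩
        have e1 : ∀ c : 𝓞 K, ((a ^ 2 * c : 𝓞 K) : K) = (a : K) ^ 2 * c := fun c => by
          push_cast; rfl
        rw [e1, e1, mul_assoc] at hy
        exact mul_left_cancel₀ (pow_ne_zero 2 haK) hy
      · intro b hb c' hc'
        obtain ⟨c, hc, rfl⟩ := List.mem_map.1 hc'
        exact hcr b hb c hc
  | four F F' A a y x hy hx hn hgen h0 ih =>
    have hal : ∀ y : K, algebraMap K F' y = algebraMap F F' (algebraMap K F y) :=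
      fun y => IsScalarTower.algebraMap_apply K F F' y
    have ha : a ≠ 0 := by
      rintro rfl
      have h1 : y ^ 2 = 0 := hy.trans (map_zero (algebraMap K F))
      rw [(pow_eq_zero_iff two_ne_zero).1 h1, map_zero] at hx
      exact hn ⟨0, by rw [map_zero, (pow_eq_zero_iff two_ne_zero).1 hx]⟩
    have haK : (a : K) ≠ 0 := by exact_mod_cast ha
    have hiF : (algebraMap K F i) ^ 2 = -1 := by rw [← map_pow, hi, map_neg, map_one]
    have hcr : ∀ b ∈ A, ∀ c ∈ A, ¬ ∃ y : K, (b : K) = ((a * c : 𝓞 K) : K) * y ^ 4 := by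
      rintro b hb c hc ⟨w, hw⟩
      obtain ⟨β, hβ⟩ := ih.pow b hb
      obtain ⟨γ, hγ⟩ := ih.pow c hc
      have hbK : (b : K) ≠ 0 := by exact_mod_cast ih.ne b hb
      have hcK : (c : K) ≠ 0 := by exact_mod_cast ih.ne c hc
      have hγ0 : γ ≠ 0 := by
        rintro rfl
        rw [zero_pow (by norm_num)] at hγ
        exact hcK ((map_eq_zero _).1 hγ.symm)
      have hw0 : w ≠ 0 := by
        rintro rfl
        rw [zero_pow (by norm_num), mul_zero] at hw
        exact hbK hw
      have hwF : algebraMap K F w ≠ 0 := (map_ne_zero _).2 hw0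
      have e1 : ((a * c : 𝓞 K) : K) = (a : K) * c := by push_cast; rfl
      have h1 : y ^ 2 = (β / (γ * algebraMap K F w)) ^ 4 := by
        rw [div_pow, mul_pow, hβ, hγ, hw, e1, map_mul, map_mul, map_pow, hy,
          eq_div_iff (mul_ne_zero ((map_ne_zero _).2 hcK) (pow_ne_zero 4 hwF))]
        ring
      obtain ⟨z, hz⟩ := qt_sqrt hiF h1
      have h2 : (algebraMap F F' z) ^ 2 = x ^ 2 := by rw [hx, ← map_pow, hz]
      rcases sq_eq_sq_iff_eq_or_eq_neg.1 h2 with h3 | h3
      · exact hn ⟨_, h3⟩
      · exact hn ⟨-z, by rw [map_neg, h3, neg_neg]⟩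
    refine ⟨?_, ?_, ?_, ?_⟩
    · rw [List.length_append, List.length_map, ih.len, ← Module.finrank_mul_finrank K F F',
        finrank_two' hn hgen]
      ring
    · intro b hb
      rcases List.mem_append.1 hb with h1 | h1
      · exact ih.ne b h1
      · obtain ⟨c, hc, rfl⟩ := List.mem_map.1 h1
        exact mul_ne_zero ha (ih.ne c hc)
    · intro b hb
      rcases List.mem_append.1 hb with h1 | h1
      · obtain ⟨z, hz⟩ := ih.pow b h1
        exact ⟨algebraMap F F' z, by rw [← map_pow, hz, hal]⟩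
      · obtain ⟨c, hc, rfl⟩ := List.mem_map.1 h1
        obtain ⟨z, hz⟩ := ih.pow c hc
        refine ⟨x * algebraMap F F' z, ?_⟩
        have e1 : ((a * c : 𝓞 K) : K) = (a : K) * c := by push_cast; rfl
        have e2 : x ^ 4 = (x ^ 2) ^ 2 := by ring
        rw [mul_pow, e2, hx, ← map_pow (algebraMap F F'), ← map_pow (algebraMap F F') z, hz, hy,
          ← map_mul, ← map_mul, ← hal]
        exact congrArg _ e1.symm
    · rw [List.pairwise_append]
      refine ⟨ih.pw, ?_, ?_⟩
      · rw [List.pairwise_map]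
        refine ih.pw.imp ?_
        rintro b c h1 ⟨y, hy⟩
        apply h1
        refine ⟨y, ?_⟩
        have e1 : ∀ c : 𝓞 K, ((a * c : 𝓞 K) : K) = (a : K) * c := fun c => by
          push_cast; rfl
        rw [e1, e1, mul_assoc] at hy
        exact mul_left_cancel₀ haK hy
      · intro b hb c' hc'
        obtain ⟨c, hc, rfl⟩ := List.mem_map.1 hc'
        exact hcr b hb c hc

/-- An element of `𝓞 K` and a fourth root of it. -/
theorem exists_int4 {F : Type} [Field F] [Algebra K F] {x : F} {c : K}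
    (hx : x ^ 4 = algebraMap K F c) : ∃ (b : 𝓞 K) (a : 𝓞 K), b ≠ 0 ∧
      (algebraMap K F b * x) ^ 4 = algebraMap K F a := by
  obtain ⟨⟨b, hb⟩, a, ha⟩ := IsLocalization.exists_integer_multiple (nonZeroDivisors (𝓞 K)) c
  refine ⟨b, b ^ 3 * a, nonZeroDivisors.ne_zero hb, ?_⟩
  have h1 : (a : K) = (b : K) * c := by
    rw [Algebra.smul_def] at ha
    exact ha
  have e1 : ((b ^ 3 * a : 𝓞 K) : K) = (b : K) ^ 3 * a := by push_cast; rfl
  rw [mul_pow, hx, e1, h1, ← map_pow, ← map_mul]
  congr 1
  ring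

private theorem qt_gen {F : Type} [Field F] [NumberField F] [Algebra K F]
    {L : IntermediateField K F} {x : F} {y : L} (hx : x ^ 2 = y) {M : IntermediateField L F}
    (hM : M = IntermediateField.adjoin L {x}) : ∀ z ∈ M, ∃ b c : L, z = b + c * x := by
  have hint : IsAlgebraic L x := Algebra.IsAlgebraic.isAlgebraic x
  intro z hz
  have hz1 : z ∈ Algebra.adjoin L {x} := by
    rw [← IntermediateField.adjoin_simple_toSubalgebra_of_isAlgebraic hint, ← hM]
    exact hz
  refine Algebra.adjoin_induction (p := fun z _ => ∃ b c : L, z = b + c * x)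
    ?_ ?_ ?_ ?_ hz1
  · rintro y hy
    rw [Set.mem_singleton_iff] at hy
    exact ⟨0, 1, by rw [hy]; simp⟩
  · intro y
    exact ⟨y, 0, by simp⟩
  · rintro y z _ _ ⟨b, c, rfl⟩ ⟨b', c', rfl⟩
    exact ⟨b + b', c + c', by push_cast; ring⟩
  · rintro _ z _ _ ⟨b, c, rfl⟩ ⟨b', c', rfl⟩
    refine ⟨b * b' + c * c' * y, b * c' + b' * c, ?_⟩
    push_cast
    rw [← hx]
    ring

/-- One more root. -/
theorem step_inter4 {F : Type} [Field F] [NumberField F] [Algebra K F]
    {L : IntermediateField K F} {A : List (𝓞 K)} (h : QT K L A) {x : F} {a : 𝓞 K}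
    (hx : x ^ 4 = algebraMap K F a) (hxL : x ∉ L) :
    ∃ L' : IntermediateField K F, L < L' ∧ ∃ A', QT K L' A' := by
  by_cases hsq : x ^ 2 ∈ L
  · -- adjoin `x`, a square root of `y = x ^ 2`
    obtain ⟨y, hy0⟩ : ∃ y : L, (y : F) = x ^ 2 := ⟨⟨x ^ 2, hsq⟩, rfl⟩
    obtain ⟨M, hM⟩ : ∃ M : IntermediateField L F, M = IntermediateField.adjoin L {x} := ⟨_, rfl⟩
    obtain ⟨L', hL'⟩ : ∃ L' : IntermediateField K F, L' = M.restrictScalars K := ⟨_, rfl⟩
    have hmem : ∀ z : F, z ∈ L' ↔ z ∈ M := fun z => by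
      rw [hL', IntermediateField.mem_restrictScalars]
    have hLL : L ≤ L' := fun z hz => by
      rw [hmem]
      exact M.algebraMap_mem ⟨z, hz⟩
    have hxM : x ∈ M := by
      rw [hM]
      exact IntermediateField.subset_adjoin L {x} rfl
    refine ⟨L', lt_of_le_of_ne hLL (fun h1 => hxL (h1 ▸ (hmem x).2 hxM)), A ++ A.map (a * ·), ?_⟩
    let _ : Algebra L L' := (IntermediateField.inclusion hLL).toRingHom.toAlgebra
    have hal : ∀ y : L, ((algebraMap L L' y : L') : F) = y := fun _ => rfl
    have hst : IsScalarTower K L L' := IsScalarTower.of_algebraMap_eq fun y => rfl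
    refine QT.four L L' A a y ⟨x, (hmem x).2 hxM⟩ (Subtype.ext ?_) (Subtype.ext ?_) ?_ ?_ h
    · have h1 : ((y ^ 2 : L) : F) = (y : F) ^ 2 := by push_cast; rfl
      rw [h1, hy0, ← pow_mul]
      exact hx
    · rw [hal, hy0]
      rfl
    · rintro ⟨z, hz⟩
      have h1 := congrArg (fun z : L' => (z : F)) hz
      simp only [hal] at h1
      exact hxL (h1 ▸ z.2)
    · intro z
      obtain ⟨b, c, hbc⟩ := qt_gen hy0.symm hM z ((hmem z).1 z.2)
      exact ⟨b, c, Subtype.ext hbc⟩
  · -- adjoin `x ^ 2`, a square root of `a`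
    obtain ⟨t, ht⟩ : ∃ t : F, t = x ^ 2 := ⟨_, rfl⟩
    have ht2 : t ^ 2 = algebraMap K F a := by rw [ht, ← pow_mul]; exact hx
    have htL : t ∉ L := by rw [ht]; exact hsq
    obtain ⟨M, hM⟩ : ∃ M : IntermediateField L F, M = IntermediateField.adjoin L {t} := ⟨_, rfl⟩
    obtain ⟨L', hL'⟩ : ∃ L' : IntermediateField K F, L' = M.restrictScalars K := ⟨_, rfl⟩
    have hmem : ∀ z : F, z ∈ L' ↔ z ∈ M := fun z => by
      rw [hL', IntermediateField.mem_restrictScalars]
    have hLL : L ≤ L' := fun z hz => by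
      rw [hmem]
      exact M.algebraMap_mem ⟨z, hz⟩
    have htM : t ∈ M := by
      rw [hM]
      exact IntermediateField.subset_adjoin L {t} rfl
    refine ⟨L', lt_of_le_of_ne hLL (fun h1 => htL (h1 ▸ (hmem t).2 htM)),
      A ++ A.map (a ^ 2 * ·), ?_⟩
    let _ : Algebra L L' := (IntermediateField.inclusion hLL).toRingHom.toAlgebra
    have hal : ∀ y : L, ((algebraMap L L' y : L') : F) = y := fun _ => rfl
    have hst : IsScalarTower K L L' := IsScalarTower.of_algebraMap_eq fun y => rfl
    refine QT.two L L' A a ⟨t, (hmem t).2 htM⟩ (Subtype.ext ht2) ?_ ?_ h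
    · rintro ⟨z, hz⟩
      have h1 := congrArg (fun z : L' => (z : F)) hz
      simp only [hal] at h1
      exact htL (h1 ▸ z.2)
    · intro z
      obtain ⟨b, c, hbc⟩ := qt_gen (y := algebraMap K L a) ht2 hM z ((hmem z).1 z.2)
      exact ⟨b, c, Subtype.ext hbc⟩

/-- **Every finite extension generated by fourth roots is in the class.** -/
theorem QT.exists_of {F : Type} [Field F] [NumberField F] [Algebra K F]
    (hF : IntermediateField.adjoin K {x : F | ∃ c : K, x ^ 4 = algebraMap K F c} = ⊤) :
    ∃ A : List (𝓞 K), QT K F A := by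
  obtain ⟨P, hP⟩ : ∃ P : IntermediateField K F → Prop,
    P = fun L : IntermediateField K F => ∃ A, QT K L A := ⟨_, rfl⟩
  have hbot : P ⊥ := by
    rw [hP]
    refine ⟨[1], QT.base _ ?_⟩
    refine ⟨(algebraMap K (⊥ : IntermediateField K F)).injective, fun z => ?_⟩
    obtain ⟨y, hy⟩ := IntermediateField.mem_bot.1 z.2
    exact ⟨y, Subtype.ext hy⟩
  obtain ⟨L, hL, hmax⟩ : ∃ L : IntermediateField K F, P L ∧ ∀ L' : IntermediateField K F,
      P L' → Module.finrank K L' ≤ Module.finrank K L := by
    by_contra hcon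
    push Not at hcon
    have h1 : ∀ n : ℕ, ∃ L : IntermediateField K F, P L ∧ n ≤ Module.finrank K L := by
      intro n
      induction n with
      | zero => exact ⟨⊥, hbot, Nat.zero_le _⟩
      | succ n ih =>
        obtain ⟨L, h2, h3⟩ := ih
        obtain ⟨L', h4, h5⟩ := hcon L h2
        exact ⟨L', h4, by omega⟩
    obtain ⟨L, _, h3⟩ := h1 (Module.finrank K F + 1)
    have h4 : Module.finrank K L ≤ Module.finrank K F := Submodule.finrank_le
      (Subalgebra.toSubmodule L.toSubalgebra)
    omega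
  have htop : L = ⊤ := by
    rw [← top_le_iff, ← hF, IntermediateField.adjoin_le_iff]
    rintro x ⟨c, hx⟩
    by_contra hxL
    obtain ⟨b, a, hb, hba⟩ := exists_int4 hx
    have hbK : (algebraMap K F (b : K)) ≠ 0 := (map_ne_zero _).2 (by exact_mod_cast hb)
    have hbL : algebraMap K F (b : K) ∈ L := L.algebraMap_mem _
    have hxL' : algebraMap K F b * x ∉ L := by
      intro h1
      apply hxL
      have h2 := L.mul_mem (L.inv_mem hbL) h1
      rwa [inv_mul_cancel_left₀ hbK] at h2
    rw [hP] at hL hmax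
    obtain ⟨A, hA⟩ := hL
    obtain ⟨L', h1, A', h3⟩ := step_inter4 hA hba hxL'
    have h4 := hmax L' ⟨_, h3⟩
    have h5 : Module.finrank K L < Module.finrank K L' :=
      Submodule.finrank_lt_finrank_of_lt (s := Subalgebra.toSubmodule L.toSubalgebra)
        (t := Subalgebra.toSubmodule L'.toSubalgebra) h1
    omega
  rw [hP] at hL
  obtain ⟨A, hA⟩ := hL
  subst htop
  exact ⟨A, hA.congr IntermediateField.topEquiv⟩

end

end Pool.Agent.Lib.MP_1a91b9_ntY
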