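import Pool.Agent.Lib.MP_1a91b9_ntY.Q4
import Pool.Agent.Lib.MP_1a91b9_ntY.Qt

/-!
# The curves `y² = x³ + a x` over the extensions of `ℚ(i)` generated by fourth roots
-/

set_option autoImplicit false

namespace Pool.Agent.Lib.MP_1a91b9_ntY

open NumberField WeierstrassCurve Pool.Agent.Lib.MP_1a91b9_nuT Pool.Agent.Lib.MP_1a91b9_nuX
open Pool.Agent.Lib.MP_1a91b9_nuX.LG (LConcl)
open Pool.Agent.Lib.MP_1a91b9_nuX.GL (EllK)
open Pool.Agent.Lib.MP_1a91b9_nuX.PH (Fm fm_up)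
open Pool.Agent.Lib.MP_1a91b9_ntN.G (finrank_two')
open Pool.Agent.Lib.MP_1a91b9_ntQ

/-- the curve `y² = x³ + a x` over `F` -/
noncomputable def Wq4 (F : Type*) [Field F] [Algebra K4 F] (a : K4) : WeierstrassCurve F :=
  ⟨0, 0, 0, algebraMap K4 F a, 0⟩

theorem Wq4_eq (F : Type*) [Field F] [Algebra K4 F] (a : K4) :
    Wq4 F a = Sh F (algebraMap K4 F a) 0 := rfl

/-- `K4` contains a square root of `-1` -/
theorem exists_i4 : ∃ i : K4, i ^ 2 = -1 := by
  obtain ⟨ζ, hζ⟩ := IsCyclotomicExtension.exists_isPrimitiveRoot ℚ K4 (S := {4}) (n := 4)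
    (Set.mem_singleton 4) (by norm_num)
  refine ⟨ζ, ?_⟩
  have h1 : ζ ^ 4 = 1 := hζ.pow_eq_one
  have h2 : (ζ ^ 2 - 1) * (ζ ^ 2 + 1) = 0 := by linear_combination h1
  rcases mul_eq_zero.1 h2 with h3 | h3
  · exfalso
    have h4 := hζ.dvd_of_pow_eq_one 2 (sub_eq_zero.1 h3)
    norm_num at h4
  · exact eq_neg_of_add_eq_zero_left h3

theorem fm_Wq4 {F : Type} [Field F] [NumberField F] [Algebra K4 F] {a : K4} (ha : a ≠ 0) :
    Fm (Sh F (algebraMap K4 F a) 0) := by
  have h1 := fm_up (F' := F) (fm_K4 ha)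
  rw [Sh_map, map_zero] at h1
  exact h1

/-- **From `K = ℚ(i)` to an extension of `K` generated by fourth roots**, the curves
`y² = x³ + a x`. -/
theorem chain4x {F : Type} [Field F] [NumberField F] [Algebra K4 F] {A : List (𝓞 K4)}
    (h : QT K4 F A) : ∀ a : K4, a ≠ 0 →
    (∀ e ∈ A, LConcl (Wq4 K4 (e * a)) ∧ Finite (Wq4 K4 (e * a)).toAffine.Point) →
    LConcl (Wq4 F a) ∧ Finite (Wq4 F a).toAffine.Point := by
  induction h with
  | base F hb =>
    intro a ha hA
    obtain ⟨h1, h2⟩ := hA 1 (List.mem_singleton_self 1)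
    have e1 : ((1 : 𝓞 K4) : K4) * a = a := one_mul a
    rw [e1, Wq4_eq] at h1 h2
    have h3 := lconcl_bijJ ellK4' hb (fm_Wq4 ha) h1
    have h4 := finite_bijJ hb h2
    rw [map_zero] at h3 h4
    exact ⟨h3, h4⟩
  | two F F' A α x hx hn hgen h ih =>
    intro a ha hA
    have hα : α ≠ 0 := by
      rintro rfl
      apply hn
      refine ⟨0, ?_⟩
      have h2 : x ^ 2 = 0 := hx.trans (map_zero (algebraMap K4 F'))
      rw [map_zero, (pow_eq_zero_iff two_ne_zero).1 h2]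
    have hαK : (α : K4) ≠ 0 := fun h0 => hα (RingOfIntegers.ext h0)
    have hα' : algebraMap K4 F (α : K4) ≠ 0 := (map_ne_zero _).2 hαK
    have hx' : x ^ 2 = algebraMap F F' (algebraMap K4 F (α : K4)) := by
      rw [hx, ← IsScalarTower.algebraMap_apply K4 F F']
    obtain ⟨h1, h2⟩ := ih a ha fun e he => hA e (List.mem_append_left _ he)
    obtain ⟨h3, h4⟩ := ih ((α : K4) ^ 2 * a) (mul_ne_zero (pow_ne_zero 2 hαK) ha) fun e he => by
      have h5 := hA (α ^ 2 * e) (List.mem_append_right _ (List.mem_map_of_mem he))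
      have e1 : ((α ^ 2 * e : 𝓞 K4) : K4) * a = (e : K4) * ((α : K4) ^ 2 * a) := by
        have e2 : ((α ^ 2 * e : 𝓞 K4) : K4) = (α : K4) ^ 2 * e := by push_cast; rfl
        rw [e2]
        ring
      rw [e1] at h5
      exact h5
    have e1 : Wq4 F ((α : K4) ^ 2 * a) = Sh F (algebraMap K4 F (α : K4) ^ 2 * algebraMap K4 F a)
        (algebraMap K4 F (α : K4) ^ 3 * 0) := by
      rw [Wq4_eq, map_mul, map_pow, mul_zero]
    have e2 : Wq4 F' a = Sh F' (algebraMap F F' (algebraMap K4 F a)) (algebraMap F F' 0) := by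
      rw [Wq4_eq, ← IsScalarTower.algebraMap_apply K4 F F', map_zero]
    rw [e1] at h3 h4
    rw [e2]
    exact ⟨lconcl_quad hgen hα' hx' (fm_Wq4 ha) ellK4' (finrank_two' hn hgen) h1 h3,
      finite_stepJ hx' hn hgen h2 h4⟩
  | four F F' A α y x hy hx hn hgen h ih =>
    intro a ha hA
    have hα : α ≠ 0 := by
      rintro rfl
      apply hn
      have h1 : y ^ 2 = 0 := hy.trans (map_zero (algebraMap K4 F))
      rw [(pow_eq_zero_iff two_ne_zero).1 h1, map_zero] at hx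
      exact ⟨0, by rw [map_zero, (pow_eq_zero_iff two_ne_zero).1 hx]⟩
    have hαK : (α : K4) ≠ 0 := fun h0 => hα (RingOfIntegers.ext h0)
    have hy0 : y ≠ 0 := by
      rintro rfl
      rw [zero_pow two_ne_zero] at hy
      exact hαK ((map_eq_zero _).1 hy.symm)
    obtain ⟨h1, h2⟩ := ih a ha fun e he => hA e (List.mem_append_left _ he)
    obtain ⟨h3, h4⟩ := ih ((α : K4) * a) (mul_ne_zero hαK ha) fun e he => by
      have h5 := hA (α * e) (List.mem_append_right _ (List.mem_map_of_mem he))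
      have e1 : ((α * e : 𝓞 K4) : K4) * a = (e : K4) * ((α : K4) * a) := by
        have e2 : ((α * e : 𝓞 K4) : K4) = (α : K4) * e := by push_cast; rfl
        rw [e2]
        ring
      rw [e1] at h5
      exact h5
    have e1 : Wq4 F ((α : K4) * a) = Sh F (y ^ 2 * algebraMap K4 F a) (y ^ 3 * 0) := by
      rw [Wq4_eq, map_mul, mul_zero, hy]
    have e2 : Wq4 F' a = Sh F' (algebraMap F F' (algebraMap K4 F a)) (algebraMap F F' 0) := by
      rw [Wq4_eq, ← IsScalarTower.algebraMap_apply K4 F F', map_zero]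
    rw [e1] at h3 h4
    rw [e2]
    exact ⟨lconcl_quad hgen hy0 hx (fm_Wq4 ha) ellK4' (finrank_two' hn hgen) h1 h3,
      finite_stepJ hx hn hgen h2 h4⟩

end Pool.Agent.Lib.MP_1a91b9_ntY
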