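import Pool.Agent.Lib.MP_1a91b9_ntY.Q4x

/-!
# The extensions of `ℚ(i)` generated by fourth roots: the interface

`EX4 F A` : the class of the abelian extensions `F` of `K = ℚ(i)` of exponent dividing `4`, with the list `A` of
representatives of the elements of `K` which are fourth powers in `F`.
`EX4.exists_of`, `EX4.len`, `EX4.ne`, `EX4.pw`, `EX4.pow`, `EX4.mem`, `chainX`.
-/

set_option autoImplicit false

namespace Pool.Agent.Lib.MP_1a91b9_ntY

open NumberField WeierstrassCurve Pool.Agent.Lib.MP_1a91b9_nuT Pool.Agent.Lib.MP_1a91b9_nuX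
open Pool.Agent.Lib.MP_1a91b9_nuX.LG (LConcl)
open Pool.Agent.Lib.MP_1a91b9_ntQ

/-- The extensions of `ℚ(i)` generated by fourth roots. -/
abbrev EX4 (F : Type) [Field F] [NumberField F] [Algebra K4 F] (A : List (𝓞 K4)) : Prop := QT K4 F A

variable {F : Type} [Field F] [NumberField F] [Algebra K4 F] {A : List (𝓞 K4)}

theorem EX4.exists_of (hF : IntermediateField.adjoin K4 {x : F | ∃ c : K4, x ^ 4 = algebraMap K4 F c} = ⊤) :
    ∃ A : List (𝓞 K4), EX4 F A := QT.exists_of hF

theorem EX4.len (h : EX4 F A) : A.length = Module.finrank K4 F := (QT.ok exists_i4 h).len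

theorem EX4.ne (h : EX4 F A) : ∀ e ∈ A, e ≠ 0 := (QT.ok exists_i4 h).ne

theorem EX4.pow (h : EX4 F A) : ∀ e ∈ A, ∃ y : F, y ^ 4 = algebraMap K4 F e :=
  (QT.ok exists_i4 h).pow

theorem EX4.pw (h : EX4 F A) : A.Pairwise fun e e' : 𝓞 K4 => ¬ ∃ y : K4, y ^ 4 * e = e' := by
  refine (List.Pairwise.and_mem.1 (QT.ok exists_i4 h).pw).imp ?_
  rintro e e' ⟨he, he', h1⟩ ⟨y, hy⟩
  have he'K : ((e' : 𝓞 K4) : K4) ≠ 0 := fun h0 => h.ne e' he' (RingOfIntegers.ext h0)
  have hy0 : y ≠ 0 := by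
    rintro rfl
    rw [zero_pow (by norm_num), zero_mul] at hy
    exact he'K hy.symm
  refine h1 ⟨y⁻¹, ?_⟩
  rw [← hy]
  field_simp

/-- The elements of `K` which are fourth powers in `F` are the elements of `A` times fourth powers. -/
theorem QT.mem4 {K : Type} [Field K] [NumberField K] (hi : ∃ i : K, i ^ 2 = -1) {F : Type} [Field F]
    [NumberField F] [Algebra K F] {A : List (𝓞 K)} (h : QT K F A) : ∀ x : K, x ≠ 0 →
    (∃ y : F, y ^ 4 = algebraMap K F x) → ∃ a ∈ A, ∃ z : K, z ≠ 0 ∧ x = a * z ^ 4 := by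
  obtain ⟨i, hi⟩ := hi
  have key : ∀ {N N' : Type} [Field N] [Field N'] [Algebra N N'] [CharZero N] (α : N) (x₀ : N')
      (_ : α ≠ 0) (_ : x₀ ^ 2 = algebraMap N N' α) (_ : ¬ ∃ y : N, algebraMap N N' y = x₀)
      (_ : ∀ z : N', ∃ b c : N, z = algebraMap N N' b + algebraMap N N' c * x₀) (iN : N)
      (_ : iN ^ 2 = -1) (t : N) (_ : t ≠ 0) (y : N') (_ : y ^ 4 = algebraMap N N' t),
      (∃ u : N, u ^ 4 = t) ∨ ∃ u : N, u ^ 4 = t * α ^ 2 := by
    intro N N' _ _ _ _ α x₀ hα hx hn hgen iN hiN t ht y hy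
    obtain ⟨b, c, rfl⟩ := hgen y
    have hinj := (algebraMap N N').injective
    -- `y² = P + Q x₀` with `P = b² + c² α`, `Q = 2 b c`
    have e1 : (algebraMap N N' b + algebraMap N N' c * x₀) ^ 4 =
        algebraMap N N' ((b ^ 2 + c ^ 2 * α) ^ 2 + (2 * b * c) ^ 2 * α) +
          algebraMap N N' (2 * (b ^ 2 + c ^ 2 * α) * (2 * b * c)) * x₀ := by
      simp only [map_add, map_mul, map_pow, map_ofNat]
      rw [← hx]
      ring
    rw [e1] at hy
    have e2 : 2 * (b ^ 2 + c ^ 2 * α) * (2 * b * c) = 0 := by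
      by_contra h3
      have h4 : algebraMap N N' (2 * (b ^ 2 + c ^ 2 * α) * (2 * b * c)) ≠ 0 := (map_ne_zero _).2 h3
      apply hn
      refine ⟨(t - ((b ^ 2 + c ^ 2 * α) ^ 2 + (2 * b * c) ^ 2 * α)) /
        (2 * (b ^ 2 + c ^ 2 * α) * (2 * b * c)), ?_⟩
      rw [map_div₀, map_sub, div_eq_iff h4]
      linear_combination -hy
    rw [e2, map_zero, zero_mul, add_zero] at hy
    have hy' := hinj hy
    rcases mul_eq_zero.1 e2 with h3 | h3
    · rcases mul_eq_zero.1 h3 with h4 | h4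
      · exact absurd h4 two_ne_zero
      · -- `b² = - c² α`: `α` is a square, impossible unless `b = c = 0`
        exfalso
        by_cases hc : c = 0
        · subst hc
          have hb : b = 0 := by
            have h5 : b ^ 2 = 0 := by linear_combination h4
            exact (pow_eq_zero_iff two_ne_zero).1 h5
          subst hb
          apply ht
          rw [← hy']
          ring
        · have h5 : (iN * b / c) ^ 2 = α := by
            rw [div_pow, mul_pow, hiN, div_eq_iff (pow_ne_zero 2 hc)]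
            linear_combination -h4
          have h6 : (algebraMap N N' (iN * b / c)) ^ 2 = x₀ ^ 2 := by
            rw [← map_pow, h5, hx]
          rcases sq_eq_sq_iff_eq_or_eq_neg.1 h6 with h7 | h7
          · exact hn ⟨_, h7⟩
          · exact hn ⟨-(iN * b / c), by rw [map_neg, h7, neg_neg]⟩
    · rcases mul_eq_zero.1 h3 with h4 | h4
      · have hb : b = 0 := by
          rcases mul_eq_zero.1 h4 with h5 | h5
          · exact absurd h5 two_ne_zero
          · exact h5
        subst hb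
        right
        refine ⟨c * α, ?_⟩
        rw [← hy']
        ring
      · subst h4
        left
        refine ⟨b, ?_⟩
        rw [← hy']
        ring
  induction h with
  | base F hb =>
    rintro x hx ⟨y, hy⟩
    obtain ⟨z, rfl⟩ := hb.2 y
    rw [← map_pow] at hy
    have h1 : z ^ 4 = x := (algebraMap K F).injective hy
    refine ⟨1, List.mem_singleton.2 rfl, z, ?_, ?_⟩
    · rintro rfl
      exact hx (by rw [← h1]; ring)
    · rw [← h1]
      have h2 : ((1 : 𝓞 K) : K) = 1 := rfl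
      rw [h2]
      ring
  | two F F' A a x₀ hx₀ hn hgen h0 ih =>
    rintro x hx ⟨y, hy⟩
    have hal : ∀ z : K, algebraMap K F' z = algebraMap F F' (algebraMap K F z) :=
      fun z => IsScalarTower.algebraMap_apply K F F' z
    have ha : (a : K) ≠ 0 := by
      intro h1
      have h2 : x₀ ^ 2 = 0 := by
        rw [hx₀, h1, map_zero]
      exact hn ⟨0, by rw [map_zero, (pow_eq_zero_iff two_ne_zero).1 h2]⟩
    have hcz : CharZero F := inferInstance
    rcases key (algebraMap K F a) x₀ ((map_ne_zero _).2 ha) (by rw [hx₀, hal]) hn hgen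
      (algebraMap K F i) (by rw [← map_pow, hi, map_neg, map_one]) (algebraMap K F x)
      ((map_ne_zero _).2 hx) y (by rw [hy, hal]) with ⟨u, hu⟩ | ⟨u, hu⟩
    · obtain ⟨a', ha', z, hz, h4⟩ := ih x hx ⟨u, hu⟩
      exact ⟨a', List.mem_append_left _ ha', z, hz, h4⟩
    · obtain ⟨a', ha', z, hz, h4⟩ := ih (x * (a : K) ^ 2) (mul_ne_zero hx (pow_ne_zero 2 ha))
        ⟨u, by rw [hu, map_mul, map_pow]⟩
      refine ⟨a ^ 2 * a', List.mem_append_right _ (List.mem_map.2 ⟨a', ha', rfl⟩), z / a,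
        div_ne_zero hz ha, ?_⟩
      have e1 : ((a ^ 2 * a' : 𝓞 K) : K) = (a : K) ^ 2 * a' := by push_cast; rfl
      rw [e1, div_pow]
      field_simp
      linear_combination h4
  | four F F' A a y₀ x₀ hy₀ hx₀ hn hgen h0 ih =>
    rintro x hx ⟨y, hy⟩
    have hal : ∀ z : K, algebraMap K F' z = algebraMap F F' (algebraMap K F z) :=
      fun z => IsScalarTower.algebraMap_apply K F F' z
    have hy0 : y₀ ≠ 0 := by
      rintro rfl
      rw [map_zero] at hx₀
      exact hn ⟨0, by rw [map_zero, (pow_eq_zero_iff two_ne_zero).1 hx₀]⟩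
    have ha : (a : K) ≠ 0 := by
      intro h1
      rw [h1, map_zero] at hy₀
      exact hy0 ((pow_eq_zero_iff two_ne_zero).1 hy₀)
    have hcz : CharZero F := inferInstance
    rcases key y₀ x₀ hy0 hx₀ hn hgen
      (algebraMap K F i) (by rw [← map_pow, hi, map_neg, map_one]) (algebraMap K F x)
      ((map_ne_zero _).2 hx) y (by rw [hy, hal]) with ⟨u, hu⟩ | ⟨u, hu⟩
    · obtain ⟨a', ha', z, hz, h4⟩ := ih x hx ⟨u, hu⟩
      exact ⟨a', List.mem_append_left _ ha', z, hz, h4⟩
    · obtain ⟨a', ha', z, hz, h4⟩ := ih (x / (a : K)) (div_ne_zero hx ha)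
        ⟨u / y₀, by
          have e1 : y₀ ^ 4 = algebraMap K F a ^ 2 := by rw [← hy₀]; ring
          rw [div_pow, hu, hy₀, e1, map_div₀, div_eq_div_iff (pow_ne_zero 2 ((map_ne_zero _).2 ha))
            ((map_ne_zero _).2 ha)]
          ring⟩
      refine ⟨a * a', List.mem_append_right _ (List.mem_map.2 ⟨a', ha', rfl⟩), z, hz, ?_⟩
      have e1 : ((a * a' : 𝓞 K) : K) = (a : K) * a' := by push_cast; rfl
      rw [e1]
      rw [div_eq_iff ha] at h4
      rw [h4]
      ring

theorem EX4.mem (h : EX4 F A) (x : K4) (hx : x ≠ 0) (hy : ∃ y : F, y ^ 4 = algebraMap K4 F x) :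
    ∃ a ∈ A, ∃ z : K4, z ≠ 0 ∧ x = a * z ^ 4 := QT.mem4 exists_i4 h x hx hy

/-- **From `K = ℚ(i)` to an extension of `K` generated by fourth roots.** -/
theorem chainX (h : EX4 F A) (D : K4) (hD : D ≠ 0)
    (hA : ∀ e ∈ A, LConcl (⟨0, 0, 0, -(D * (e : K4)), 0⟩ : WeierstrassCurve K4) ∧
      Finite (⟨0, 0, 0, -(D * (e : K4)), 0⟩ : WeierstrassCurve K4).toAffine.Point) :
    LConcl (⟨0, 0, 0, -algebraMap K4 F D, 0⟩ : WeierstrassCurve F) ∧
      Finite (⟨0, 0, 0, -algebraMap K4 F D, 0⟩ : WeierstrassCurve F).toAffine.Point := by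
  have e1 : Wq4 F (-D) = ⟨0, 0, 0, -algebraMap K4 F D, 0⟩ := by
    rw [← map_neg]
    rfl
  rw [← e1]
  refine chain4x h (-D) (neg_ne_zero.2 hD) fun e he => ?_
  have e2 : Wq4 K4 ((e : K4) * -D) = ⟨0, 0, 0, -(D * (e : K4)), 0⟩ := by
    have e3 : (e : K4) * -D = -(D * (e : K4)) := by ring
    rw [e3]
    rfl
  rw [e2]
  exact hA e he

end Pool.Agent.Lib.MP_1a91b9_ntY
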