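import Pool.Agent.Lib.MP_1a91b9_ntY.Isg

/-!
# The elliptic curves with complex multiplication by an order of a quadratic field and a point of order two

`CMK K W`: the invariant of `W` is one of the `13` rational invariants of curves with complex
multiplication, and `K` contains the imaginary quadratic field. `Pt2 W`: `W` has a `K`-rational point of
order two. `star_of`: a result for the quadratic twists of the four curves with complex multiplication
by the maximal order gives it for all these curves.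
-/

set_option autoImplicit false

namespace Pool.Agent.Lib.MP_1a91b9_ntY

open NumberField WeierstrassCurve
open Pool.Agent.Lib.MP_1a91b9_nuI (HasJ)
open Pool.Agent.Lib.MP_1a91b9_ntL (crv Endo2 endo2_iff)
open Pool.Agent.Lib.MP_1a91b9_ntW.J (MQG MQW mqw_crv twd_crv twd_hasJ)

/-- a cubic polynomial `x³ + p x + q` with `2 ∣ p`, `q ≡ 2` modulo `4` has no rational root -/
theorem no_root_rat {p q : ℤ} (hp : 2 ∣ p) (hq : q % 4 = 2) (r : ℚ) :
    r ^ 3 + p * r + q ≠ 0 := by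
  intro h
  have hint : IsIntegral ℤ r := by
    refine ⟨Polynomial.X ^ 3 + (Polynomial.C p * Polynomial.X + Polynomial.C q), ?_, ?_⟩
    · refine Polynomial.monic_X_pow_add ?_
      refine (Polynomial.degree_linear_le).trans_lt ?_
      norm_num
    · rw [Polynomial.eval₂_add, Polynomial.eval₂_pow, Polynomial.eval₂_X, Polynomial.eval₂_add,
        Polynomial.eval₂_mul, Polynomial.eval₂_X, Polynomial.eval₂_C, Polynomial.eval₂_C,
        eq_intCast, eq_intCast]
      linear_combination h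
  obtain ⟨n, hn⟩ := IsIntegrallyClosed.isIntegral_iff.1 hint
  rw [eq_intCast] at hn
  rw [← hn] at h
  have h1 : n ^ 3 + p * n + q = 0 := by exact_mod_cast h
  obtain ⟨k, rfl⟩ := hp
  have h2 : 2 ∣ n ^ 3 := by
    refine ⟨-(k * n) - q / 2, ?_⟩
    have : q = 2 * (q / 2) := by omega
    linear_combination h1 - this
  obtain ⟨m, rfl⟩ := Int.prime_two.dvd_of_dvd_pow h2
  have h3 : q = 4 * (-2 * m ^ 3 - k * m) := by linear_combination h1
  omega

/-- nor a root in a quadratic field -/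
theorem no_root_quad {K : Type*} [Field K] [NumberField K] (hK : Module.finrank ℚ K = 2) {p q : ℤ}
    (hp : 2 ∣ p) (hq : q % 4 = 2) (x : K) : x ^ 3 + p * x + q ≠ 0 := by
  intro h
  let f : Polynomial ℚ := Polynomial.X ^ 3 + (Polynomial.C (p : ℚ) * Polynomial.X +
    Polynomial.C (q : ℚ))
  have hdeg : (Polynomial.C (p : ℚ) * Polynomial.X + Polynomial.C (q : ℚ)).degree < 3 :=
    (Polynomial.degree_linear_le).trans_lt (by norm_num)
  have hmon : f.Monic := Polynomial.monic_X_pow_add hdeg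
  have hnd : f.natDegree = 3 := by
    refine Polynomial.natDegree_eq_of_degree_eq_some ?_
    refine (Polynomial.degree_add_eq_left_of_degree_lt ?_).trans (Polynomial.degree_X_pow 3)
    rw [Polynomial.degree_X_pow]
    exact hdeg
  have hirr : Irreducible f := by
    refine (Polynomial.irreducible_iff_roots_eq_zero_of_degree_le_three (by rw [hnd]; norm_num)
      hnd.le).2 ?_
    refine Multiset.eq_zero_of_forall_notMem fun r hr => ?_
    rw [Polynomial.mem_roots hmon.ne_zero, Polynomial.IsRoot.def] at hr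
    refine no_root_rat hp hq r ?_
    simp only [f, Polynomial.eval_add, Polynomial.eval_pow, Polynomial.eval_X,
      Polynomial.eval_mul, Polynomial.eval_C] at hr
    linear_combination hr
  have hx : Polynomial.aeval x f = 0 := by
    simp only [f, map_add, map_pow, Polynomial.aeval_X, map_mul, map_intCast]
    linear_combination h
  have h1 : minpoly ℚ x = f := (minpoly.eq_of_irreducible_of_monic hirr hx hmon).symm
  have h2 : (minpoly ℚ x).natDegree ≤ Module.finrank ℚ K := minpoly.natDegree_le x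
  rw [h1, hnd, hK] at h2
  omega

section
variable {K : Type*} [Field K]

/-- `W` has a `K`-rational point of order two. -/
def Pt2 (W : WeierstrassCurve K) : Prop :=
  ∃ x : K, 4 * x ^ 3 + W.b₂ * x ^ 2 + 2 * W.b₄ * x + W.b₆ = 0

/-- `(j, D)`: the integers `j` which are the invariants of elliptic curves with complex multiplication,
and `D` such that the order is contained in `ℚ(√D)`. -/
def cmList : List (ℤ × ℤ) :=
  [(0, -3), (54000, -3), (-12288000, -3), (1728, -4), (287496, -4), (-3375, -7), (16581375, -7),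
    (8000, -8), (-32768, -11), (-884736, -19), (-884736000, -43), (-147197952000, -67),
    (-262537412640768000, -163)]

/-- `W` is nonsingular and has complex multiplication by an order of the quadratic field `K` (its class
number is one, since the invariant of `W` generates the ring class field over `K`). -/
def CMK (W : WeierstrassCurve K) : Prop :=
  W.Δ ≠ 0 ∧ ∃ (j D : ℤ) (s : K), (j, D) ∈ cmList ∧ s ^ 2 = D ∧ HasJ W j

theorem pt2_cubic (W : WeierstrassCurve K) (h : Pt2 W) :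
    ∃ y : K, y ^ 3 - 27 * W.c₄ * y - 54 * W.c₆ = 0 := by
  obtain ⟨x, hx⟩ := h
  refine ⟨36 * x + 3 * W.b₂, ?_⟩
  rw [WeierstrassCurve.c₄, WeierstrassCurve.c₆]
  linear_combination 11664 * hx

theorem hasJ_iff_c [CharZero K] {W : WeierstrassCurve K} {j : ℤ} (hj : HasJ W j) :
    1728 * W.c₄ ^ 3 = j * (W.c₄ ^ 3 - W.c₆ ^ 2) := by
  unfold HasJ at hj
  have h1 := W.c_relation
  linear_combination 1728 * hj + (j : K) * h1

/-- the curves `y² = x³ + p x + q` over `ℚ` and their twists -/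
theorem no_pt2 [NumberField K] (hK : Module.finrank ℚ K = 2) {W : WeierstrassCurve K}
    (hW : W.Δ ≠ 0) {j p q : ℤ} (hp : 2 ∣ p) (hq : q % 4 = 2) (hp0 : p ≠ 0)
    (hj : j * (4 * p ^ 3 + 27 * q ^ 2) = 6912 * p ^ 3) (hWj : HasJ W j) : ¬ Pt2 W := by
  intro h2
  obtain ⟨y, hy⟩ := pt2_cubic W h2
  have hq0 : q ≠ 0 := by
    rintro rfl
    norm_num at hq
  have hpK : (p : K) ≠ 0 := by exact_mod_cast hp0
  have hqK : (q : K) ≠ 0 := by exact_mod_cast hq0
  have hjK : (j : K) * (4 * p ^ 3 + 27 * q ^ 2) = 6912 * p ^ 3 := by exact_mod_cast hj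
  have hj0 : (j : K) ≠ 0 := by
    intro h0
    rw [h0, zero_mul] at hjK
    exact (mul_ne_zero (by norm_num) (pow_ne_zero 3 hpK)) hjK.symm
  have r1 := W.c_relation
  have r2 := hasJ_iff_c hWj
  have w4 : W.c₄ ≠ 0 := by
    intro h0
    unfold HasJ at hWj
    rw [h0] at hWj
    have h1 : (j : K) * W.Δ = 0 := by rw [← hWj]; ring
    exact (mul_ne_zero hj0 hW) h1
  -- `27 q² c₄³ + 4 p³ c₆² · … = 0`
  have k1 : 27 * (q : K) ^ 2 * W.c₄ ^ 3 = -(4 * p ^ 3) * W.c₆ ^ 2 := by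
    have e1 : (j : K) * (27 * (q : K) ^ 2 * W.c₄ ^ 3 + 4 * p ^ 3 * W.c₆ ^ 2) = 0 := by
      linear_combination W.c₄ ^ 3 * hjK + 4 * (p : K) ^ 3 * r2
    have e2 := (mul_eq_zero.1 e1).resolve_left hj0
    linear_combination e2
  have w6 : W.c₆ ≠ 0 := by
    intro h0
    rw [h0] at k1
    have h1 : 27 * (q : K) ^ 2 * W.c₄ ^ 3 = 0 := by rw [k1]; ring
    exact (mul_ne_zero (mul_ne_zero (by norm_num) (pow_ne_zero 2 hqK)) (pow_ne_zero 3 w4)) h1
  -- `e = c₆ p / (9 c₄ q)`, `c₄ = -12 p e²`, `c₆ = -108 q e³`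
  obtain ⟨e, he⟩ : ∃ e : K, e * (9 * W.c₄ * q) = W.c₆ * p :=
    ⟨W.c₆ * p / (9 * W.c₄ * q), by
      field_simp⟩
  have he0 : e ≠ 0 := by
    rintro rfl
    rw [zero_mul] at he
    exact (mul_ne_zero w6 hpK) he.symm
  have n1 : (9 * W.c₄ * (q : K)) ≠ 0 := mul_ne_zero (mul_ne_zero (by norm_num) w4) hqK
  have c4 : W.c₄ = -12 * p * e ^ 2 := by
    have h3 : 81 * W.c₄ ^ 2 * (q : K) ^ 2 * (W.c₄ + 12 * p * e ^ 2) = 0 := by
      have h4 : e ^ 2 * (81 * W.c₄ ^ 2 * (q : K) ^ 2) = W.c₆ ^ 2 * p ^ 2 := by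
        linear_combination (e * (9 * W.c₄ * q) + W.c₆ * p) * he
      linear_combination 3 * k1 + 12 * (p : K) * h4
    have h5 : (81 * W.c₄ ^ 2 * (q : K) ^ 2) ≠ 0 :=
      mul_ne_zero (mul_ne_zero (by norm_num) (pow_ne_zero 2 w4)) (pow_ne_zero 2 hqK)
    have h6 := (mul_eq_zero.1 h3).resolve_left h5
    linear_combination h6
  have c6 : W.c₆ = -108 * q * e ^ 3 := by
    refine mul_right_cancel₀ hpK ?_
    linear_combination -he + 9 * (q : K) * e * c4
  rw [c4, c6] at hy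
  refine no_root_quad hK hp hq (y / (18 * e)) ?_
  have n2 : (18 * e) ^ 3 ≠ 0 := pow_ne_zero 3 (mul_ne_zero (by norm_num) he0)
  refine (mul_eq_zero.1 ?_).resolve_left n2
  have h7 : (18 * e) ^ 3 * ((y / (18 * e)) ^ 3 + p * (y / (18 * e)) + q) =
      y ^ 3 + 324 * p * e ^ 2 * y + 5832 * q * e ^ 3 := by
    field_simp
    ring
  rw [h7]
  linear_combination hy

/-- `j = 1728` -/
theorem crv_of_1728 [CharZero K] {W : WeierstrassCurve K} (hW : W.Δ ≠ 0) (hj : HasJ W 1728) :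
    ∃ b : K, b ≠ 0 ∧ ∃ C : VariableChange K, C • W = crv 0 b := by
  have r1 := hasJ_iff_c hj
  have r2 := W.c_relation
  have n1728 : (1728 : K) ≠ 0 := by norm_num
  have h6 : W.c₆ = 0 := by
    push_cast at r1
    have h1 : (1728 : K) * W.c₆ ^ 2 = 0 := by linear_combination r1
    exact pow_eq_zero_iff two_ne_zero |>.1 ((mul_eq_zero.1 h1).resolve_left n1728)
  have h4 : W.c₄ ≠ 0 := by
    intro h0
    rw [h0, h6] at r2
    have h1 : (1728 : K) * W.Δ = 0 := by rw [r2]; ring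
    exact (mul_ne_zero n1728 hW) h1
  refine ⟨-W.c₄ / 48, div_ne_zero (neg_ne_zero.2 h4) (by norm_num), ?_⟩
  obtain ⟨C, hC⟩ := crv_of_c W (a := 0) (b := -W.c₄ / 48) (e := 1) (by
    rw [crv_c₄]
    ring) (by
    rw [crv_c₆, h6]
    ring)
  refine ⟨C, ?_⟩
  rw [hC]
  congr 1
  · ring
  · ring

/-- `j = 0`, with a point of order two -/
theorem crv_of_0 [CharZero K] {W : WeierstrassCurve K} (hW : W.Δ ≠ 0) (hj : HasJ W 0)
    (h2 : Pt2 W) : ∃ e : K, e ≠ 0 ∧ ∃ C : VariableChange K, C • W = crv (-3 * e) (3 * e ^ 2) := by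
  have r2 := W.c_relation
  have h4 : W.c₄ = 0 := by
    unfold HasJ at hj
    push_cast at hj
    rw [zero_mul] at hj
    exact pow_eq_zero_iff three_ne_zero |>.1 hj
  obtain ⟨y, hy⟩ := pt2_cubic W h2
  rw [h4] at hy r2
  have n864 : (864 : K) ≠ 0 := by norm_num
  have n6 : (36 : K) ≠ 0 := by norm_num
  have hy3 : y ^ 3 = 54 * W.c₆ := by linear_combination hy
  have hy0 : y ≠ 0 := by
    rintro rfl
    have h1 : W.c₆ = 0 := by
      have h3 : (54 : K) * W.c₆ = 0 := by rw [← hy3]; ring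
      exact (mul_eq_zero.1 h3).resolve_left (by norm_num)
    rw [h1] at r2
    have h3 : (1728 : K) * W.Δ = 0 := by rw [r2]; ring
    exact (mul_ne_zero (by norm_num) hW) h3
  -- `c₆ = -864 e³`, `y = -36 e`
  refine ⟨-y / 36, div_ne_zero (neg_ne_zero.2 hy0) n6, ?_⟩
  obtain ⟨C, hC⟩ := crv_of_c W (a := -3) (b := 3) (e := -y / 36) (by
    rw [crv_c₄, h4]
    ring) (by
    rw [crv_c₆]
    linear_combination (-1 / 54 : K) * hy3)
  refine ⟨C, ?_⟩
  rw [hC]
  congr 1
  · ring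
  · ring

end

/-- `y² = x (x + e) (x + 2 e)` is isomorphic to `y² = x³ - e² x` -/
theorem crv_three {K : Type*} [Field K] (e : K) :
    (⟨1, -e, 0, 0⟩ : VariableChange K) • crv (3 * e) (2 * e ^ 2) = crv 0 (-e ^ 2) := by
  refine WeierstrassCurve.ext ?_ ?_ ?_ ?_ ?_
  · rw [variableChange_a₁]
    simp only [crv]
    ring
  · rw [variableChange_a₂]
    simp only [crv, inv_one, Units.val_one]
    ring
  · rw [variableChange_a₃]
    simp only [crv]
    ring
  · rw [variableChange_a₄]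
    simp only [crv, inv_one, Units.val_one]
    ring
  · rw [variableChange_a₆]
    simp only [crv]
    ring

/-- **Reduction to the maximal orders.** -/
theorem star_of {K : Type} [Field K] [NumberField K] (hK : Module.finrank ℚ K = 2) {l : ℕ}
    {H : 𝓞 K → 𝓞 K → Prop} {c : ℝ}
    (h1 : (∃ s : K, s ^ 2 = -1) → ∀ b : K, b ≠ 0 → MQG K l H 0 b c)
    (h2 : (∃ s : K, s ^ 2 = -2) → ∀ e : K, e ≠ 0 → MQG K l H (4 * e) (2 * e ^ 2) c)
    (h3 : (∃ s : K, s ^ 2 = -3) → ∀ e : K, e ≠ 0 → MQG K l H (-3 * e) (3 * e ^ 2) c)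
    (h7 : (∃ s : K, s ^ 2 = -7) → ∀ e : K, e ≠ 0 → MQG K l H (21 * e) (112 * e ^ 2) c)
    {W : WeierstrassCurve K} (hW : CMK W) (hP : Pt2 W) : MQW K l H W c := by
  obtain ⟨hΔ, j, D, s, hm, hs, hj⟩ := hW
  simp only [cmList, List.mem_cons, Prod.mk.injEq, List.not_mem_nil, or_false] at hm
  rcases hm with ⟨rfl, rfl⟩ | ⟨rfl, rfl⟩ | ⟨rfl, rfl⟩ | ⟨rfl, rfl⟩ | ⟨rfl, rfl⟩ | ⟨rfl, rfl⟩ |
    ⟨rfl, rfl⟩ | ⟨rfl, rfl⟩ | ⟨rfl, rfl⟩ | ⟨rfl, rfl⟩ | ⟨rfl, rfl⟩ | ⟨rfl, rfl⟩ | ⟨rfl, rfl⟩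
  · have k := h3 ⟨s, by rw [hs]; norm_num⟩
    obtain ⟨e, he, C, hC⟩ := crv_of_0 hΔ hj hP
    refine (k e he).mqw_vc (hasJ_crv (j := 0) ?_) hC
    push_cast
    ring
  · exact isg_3 (h3 ⟨s, by rw [hs]; norm_num⟩) hΔ hj
  · exact absurd hP (no_pt2 hK hΔ (p := -120) (q := 506) (by decide) (by decide) (by decide)
      (by norm_num) hj)
  · have k := h1 ⟨s / 2, by rw [div_pow, hs]; norm_num⟩
    obtain ⟨b, hb, C, hC⟩ := crv_of_1728 hΔ hj
    refine (k b hb).mqw_vc (hasJ_crv (j := 1728) ?_) hC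
    push_cast
    ring
  · have k := h1 ⟨s / 2, by rw [div_pow, hs]; norm_num⟩
    refine isg_i (fun e he => mqw_crv.1 ?_) hΔ hj
    refine (k (-e ^ 2) (neg_ne_zero.2 (pow_ne_zero 2 he))).mqw_vc (hasJ_crv (j := 1728) ?_)
      (crv_three e)
    push_cast
    ring
  · have k := h7 ⟨s, by rw [hs]; norm_num⟩
    have t1 : HasJ (crv (21 : K) 112) (-3375) := hasJ_crv (by push_cast; norm_num)
    obtain ⟨e, he, C, hC⟩ := crv_of_j hΔ hj t1 (by rw [crv_Δ]; norm_num)
      (by rw [crv_c₄]; norm_num) (by rw [crv_c₆]; norm_num)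
    have t2 := twd_hasJ t1 e
    rw [twd_crv] at t2
    rw [mul_comm e 21, mul_comm (e ^ 2) 112] at hC t2
    exact (k e he).mqw_vc t2 hC
  · exact isg_7 (h7 ⟨s, by rw [hs]; norm_num⟩) hΔ hj
  · have k := h2 ⟨s / 2, by rw [div_pow, hs]; norm_num⟩
    have t1 : HasJ (crv (4 : K) 2) 8000 := hasJ_crv (by push_cast; norm_num)
    obtain ⟨e, he, C, hC⟩ := crv_of_j hΔ hj t1 (by rw [crv_Δ]; norm_num)
      (by rw [crv_c₄]; norm_num) (by rw [crv_c₆]; norm_num)
    have t2 := twd_hasJ t1 e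
    rw [twd_crv] at t2
    rw [mul_comm e 4, mul_comm (e ^ 2) 2] at hC t2
    exact (k e he).mqw_vc t2 hC
  · exact absurd hP (no_pt2 hK hΔ (p := -264) (q := 1694) (by decide) (by decide) (by decide)
      (by norm_num) hj)
  · exact absurd hP (no_pt2 hK hΔ (p := -152) (q := 722) (by decide) (by decide) (by decide)
      (by norm_num) hj)
  · exact absurd hP (no_pt2 hK hΔ (p := -3440) (q := 77658) (by decide) (by decide) (by decide)
      (by norm_num) hj)
  · exact absurd hP (no_pt2 hK hΔ (p := -29480) (q := 1948226) (by decide) (by decide)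
      (by decide) (by norm_num) hj)
  · exact absurd hP (no_pt2 hK hΔ (p := -8697680) (q := 9873093538) (by decide) (by decide)
      (by decide) (by norm_num) hj)

theorem hasJ_th {K : Type*} [Field K] {θ : K} (hθ : θ ^ 2 = θ - 2) :
    (crv (1 + (1 - θ) ^ 4) ((1 - θ) ^ 4)).c₄ = -240 ∧ (crv (1 + (1 - θ) ^ 4) ((1 - θ) ^ 4)).Δ = 4096 := by
  have h4 : (1 - θ) ^ 4 = 3 * θ - 1 := by
    linear_combination (θ ^ 2 - 3 * θ + 1) * hθ
  rw [h4, crv_c₄, crv_Δ]
  constructor
  · linear_combination 144 * hθ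
  · linear_combination (1296 * θ ^ 2 - 1296 * θ - 2016) * hθ

/-- **Reduction to the curves with an endomorphism of degree two over `K`, and to
`y² = x³ + e³`.** -/
theorem star_endo {K : Type} [Field K] [NumberField K] (hK : Module.finrank ℚ K = 2) {l : ℕ}
    {H : 𝓞 K → 𝓞 K → Prop} {c : ℝ} (h : ∀ V : WeierstrassCurve K, Endo2 V → MQW K l H V c)
    (h3 : (∃ s : K, s ^ 2 = -3) → ∀ e : K, e ≠ 0 → MQG K l H (-3 * e) (3 * e ^ 2) c)
    {W : WeierstrassCurve K} (hW : CMK W) (hP : Pt2 W) : MQW K l H W c := by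
  have hone : ∀ a b : K, (1 : VariableChange K) • crv a b = crv a b := fun a b => one_smul _ _
  refine star_of hK (fun ⟨s, hs⟩ b hb => ?_) (fun ⟨s, hs⟩ e he => ?_) h3 (fun ⟨s, hs⟩ e he => ?_)
    hW hP
  · exact mqw_crv.1 (h _ ((endo2_iff _).2 (Or.inl ⟨s, b, hs, hb, 1, hone _ _⟩)))
  · exact mqw_crv.1 (h _ ((endo2_iff _).2 (Or.inr (Or.inl ⟨s, e, hs, he, 1, hone _ _⟩))))
  · have hθ : ((1 + s) / 2 : K) ^ 2 = (1 + s) / 2 - 2 := by
      field_simp
      linear_combination hs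
    obtain ⟨k4, kΔ⟩ := hasJ_th hθ
    have t0 : HasJ (crv (1 + (1 - (1 + s) / 2) ^ 4) ((1 - (1 + s) / 2) ^ 4) : WeierstrassCurve K)
        (-3375) := by
      unfold HasJ
      rw [k4, kΔ]
      push_cast
      norm_num
    have t1 : HasJ (crv (21 * e) (112 * e ^ 2)) (-3375) := hasJ_crv (by
      push_cast
      ring)
    have t2 : (crv (21 * e) (112 * e ^ 2)).Δ ≠ 0 := by
      rw [crv_Δ]
      have e1 : 16 * (112 * e ^ 2) ^ 2 * ((21 * e) ^ 2 - 4 * (112 * e ^ 2)) = -1404928 * e ^ 6 := by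
        ring
      rw [e1]
      exact mul_ne_zero (by norm_num) (pow_ne_zero 6 he)
    obtain ⟨d, hd, C, hC⟩ := crv_of_j t2 t1 t0 (by rw [kΔ]; norm_num) (by rw [k4]; norm_num) (by
      intro h6
      have r := (crv (1 + (1 - (1 + s) / 2) ^ 4) ((1 - (1 + s) / 2) ^ 4) :
        WeierstrassCurve K).c_relation
      rw [k4, kΔ, h6] at r
      norm_num at r)
    exact mqw_crv.1 (h _ ((endo2_iff _).2 (Or.inr (Or.inr ⟨_, d, hθ, hd, C, hC⟩))))

end Pool.Agent.Lib.MP_1a91b9_ntY
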