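import Pool.Agent.Lib.MP_1a91b9_ntY.Lcs
import Pool.Agent.Lib.MP_1a91b9_ntN.G.Cls
import Pool.Agent.Lib.MP_1a91b9_ntM.F5

/-!
# From `K` to a multiquadratic extension of `K`

`Tdj F a b d`: the twist by `d` of the curve `y² = x³ + a x + b`, over the field `F`. `chainJ`: if `F` is a multiquadratic extension of
`K` and the product of the twists by `e * d` over `K`, for `e` in the list of the classes of `F`, satisfies the conclusion, then so does
the twist by `d` over `F`.
-/

set_option autoImplicit false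

namespace Pool.Agent.Lib.MP_1a91b9_ntY

open NumberField IsDedekindDomain WeierstrassCurve
  Pool.Agent.Lib.MP_1a91b9_nt Pool.Agent.Lib.MP_1a91b9_nuT
open Pool.Agent.Lib.MP_1a91b9_nuX.DB Pool.Agent.Lib.MP_1a91b9_nuX.GL
  Pool.Agent.Lib.MP_1a91b9_nuX.PG Pool.Agent.Lib.MP_1a91b9_nuX.PH
open Pool.Agent.Lib.MP_1a91b9_nuX Pool.Agent.Lib.MP_1a91b9_nuX.LG
open Pool.Agent.Lib.MP_1a91b9_ntM
open Pool.Agent.Lib.MP_1a91b9_ntN.G (MQT finrank_two')

universe u

/-- descent of a good model along a Galois extension at an unramified place -/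
theorem desc_galJ {N L : Type u} [Field N] [NumberField N] [Field L] [NumberField L] [Algebra N L]
    [IsGalois N L] {w : HeightOneSpectrum (𝓞 L)}
    (he : w.asIdeal.ramificationIdx (𝓞 N) = 1) {W : WeierstrassCurve N}
    (h : Gd (W.map (algebraMap N L)) w) : Gd W (w.under (𝓞 N)) := by
  obtain ⟨C, hC⟩ := h
  have hp : w.asIdeal.IsPrime := w.isPrime
  have hfin1 : Finite (𝓞 N ⧸ w.asIdeal.under (𝓞 N)) :=
    Ideal.finiteQuotientOfFreeOfNeBot _ (w.under (𝓞 N)).ne_bot
  have h1 := Ideal.card_inertia_eq_ramificationIdxIn (G := Gal(L/N)) (w.asIdeal.under (𝓞 N))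
    w.asIdeal
  rw [Ideal.ramificationIdxIn_eq_ramificationIdx _ w.asIdeal Gal(L/N), he] at h1
  have h3 : w.asIdeal.inertia Gal(L/N) = ⊥ := Subgroup.eq_bot_of_card_eq _ h1
  refine GM.desc_good (u := (C.u : L)) (r := C.r) (s := C.s) (t := C.t) C.u.ne_zero ?_ ?_
  · intro σ hσ
    have h4 : σ ∈ w.asIdeal.inertia Gal(L/N) := hσ
    rw [h3, Subgroup.mem_bot] at h4
    rw [h4]
    exact ⟨rfl, rfl, rfl, rfl⟩
  · have e1 : (⟨Units.mk0 (C.u : L) C.u.ne_zero, C.r, C.s, C.t⟩ : VariableChange L) = C := by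
      ext
      · rfl
      · rfl
      · rfl
      · rfl
    rw [e1]
    exact hC

/-- the places of an isomorphic field -/
theorem place_oneJ {N F : Type u} [Field N] [NumberField N] [Field F] [NumberField F]
    [Algebra N F] [IsGalois N F] (h1 : Module.finrank N F = 1) (v : HeightOneSpectrum (𝓞 N)) :
    ∃ w : HeightOneSpectrum (𝓞 F),
      (∀ w' : HeightOneSpectrum (𝓞 F), w'.under (𝓞 N) = v ↔ w' = w) ∧
      w.asIdeal.inertiaDeg (𝓞 N) = 1 ∧ w.asIdeal.ramificationIdx (𝓞 N) = 1 := by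
  have hvp : v.asIdeal.IsPrime := v.isPrime
  have hvm : v.asIdeal.IsMaximal := v.isMaximal
  have hfund := Ideal.ncard_primesOver_mul_ramificationIdxIn_mul_inertiaDegIn v.asIdeal (𝓞 F)
    Gal(F/N)
  rw [IsGalois.card_aut_eq_finrank, h1] at hfund
  have hg := Nat.eq_one_of_mul_eq_one_right hfund
  have hef := Nat.eq_one_of_mul_eq_one_left hfund
  have he := Nat.eq_one_of_mul_eq_one_right hef
  have hf := Nat.eq_one_of_mul_eq_one_left hef
  obtain ⟨P, hP⟩ := Set.ncard_eq_one.1 hg
  have hPm : P ∈ v.asIdeal.primesOver (𝓞 F) := by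
    rw [hP]
    exact Set.mem_singleton P
  obtain ⟨hP1, hP2⟩ := hPm
  have hne : P ≠ ⊥ := by
    rintro rfl
    have h2 := hP2.over
    rw [Ideal.under_bot] at h2
    exact v.ne_bot h2
  refine ⟨⟨P, hP1, hne⟩, fun w' => ?_, ?_, ?_⟩
  · constructor
    · intro h
      apply HeightOneSpectrum.ext
      have h3 : w'.asIdeal ∈ v.asIdeal.primesOver (𝓞 F) :=
        ⟨w'.isPrime, ⟨(congrArg HeightOneSpectrum.asIdeal h).symm⟩⟩
      rw [hP] at h3
      exact h3
    · rintro rfl
      exact HeightOneSpectrum.ext hP2.over.symm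
  · have i1 : P.IsPrime := hP1
    show P.inertiaDeg (𝓞 N) = 1
    rw [← hf]
    exact (Ideal.inertiaDegIn_eq_inertiaDeg v.asIdeal P Gal(F/N)).symm
  · have i1 : P.IsPrime := hP1
    show P.ramificationIdx (𝓞 N) = 1
    rw [← he]
    exact (Ideal.ramificationIdxIn_eq_ramificationIdx v.asIdeal P Gal(F/N)).symm

/-- the step for the points -/
theorem finite_stepJ {N N' : Type u} [Field N] [NumberField N] [Field N'] [NumberField N']
    [Algebra N N'] {α : N} {x : N'} (hx : x ^ 2 = algebraMap N N' α)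
    (hn : ¬ ∃ y : N, algebraMap N N' y = x)
    (hgen : ∀ z : N', ∃ b c : N, z = algebraMap N N' b + algebraMap N N' c * x) {a b : N}
    (h1 : Finite (Sh N a b).toAffine.Point)
    (h2 : Finite (Sh N (α ^ 2 * a) (α ^ 3 * b)).toAffine.Point) :
    Finite (Sh N' (algebraMap N N' a) (algebraMap N N' b)).toAffine.Point := by
  have hsq : ¬ IsSquare α := by
    rintro ⟨b, rfl⟩
    rw [map_mul, ← sq] at hx
    rcases sq_eq_sq_iff_eq_or_eq_neg.1 hx with h | h
    · exact hn ⟨b, h.symm⟩
    · exact hn ⟨-b, by rw [map_neg, h]⟩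
  have ha : α ≠ 0 := by
    rintro rfl
    exact hsq ⟨0, by rw [mul_zero]⟩
  have h3 := short_finite a b α ha hsq (finrank_two' hn hgen) x hx (Sh N a b)
    (Sh N (α ^ 2 * a) (α ^ 3 * b)) rfl rfl h1 h2
  have h4 : (Sh N a b).baseChange N' = Sh N' (algebraMap N N' a) (algebraMap N N' b) :=
    Sh_map a b
  rw [h4] at h3
  exact h3

/-- the points over an isomorphic field -/
theorem finite_bijJ {N F : Type*} [Field N] [Field F] [Algebra N F]
    (hb : Function.Bijective (algebraMap N F)) {a b : N} (h : Finite (Sh N a b).toAffine.Point) :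
    Finite (Sh F (algebraMap N F a) (algebraMap N F b)).toAffine.Point := by
  obtain ⟨e, he⟩ : ∃ e : N ≃+* F, ∀ x, e x = algebraMap N F x :=
    ⟨RingEquiv.ofBijective (algebraMap N F) hb, fun x => rfl⟩
  have h1 : (Sh F (algebraMap N F a) (algebraMap N F b)).map (e.symm : F →+* N) = Sh N a b := by
    refine WeierstrassCurve.ext ?_ ?_ ?_ ?_ ?_
    · exact map_zero _
    · exact map_zero _
    · exact map_zero _
    · show e.symm (algebraMap N F a) = a
      rw [← he, RingEquiv.symm_apply_apply]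
    · show e.symm (algebraMap N F b) = b
      rw [← he, RingEquiv.symm_apply_apply]
  have h2 : Finite ((Sh F (algebraMap N F a) (algebraMap N F b)).map
      (e.symm : F →+* N)).toAffine.Point := by
    rw [h1]
    exact h
  exact Finite.of_injective _ (TW.locMap_injective (e.symm : F →+* N) _)

variable [CD]

/-- **Isomorphic fields.** -/
theorem lconcl_bijJ (hE : EllK) {N F : Type u} [Field N] [NumberField N] [Field F] [NumberField F]
    [Algebra N F] [Algebra K N] [Algebra K F] [IsScalarTower K N F]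
    (hb : Function.Bijective (algebraMap N F)) {a b : N} (hW : Fm (Sh N a b))
    (h : LConcl (Sh N a b)) : LConcl (Sh F (algebraMap N F a) (algebraMap N F b)) := by
  have e : N ≃ₐ[N] F := AlgEquiv.ofBijective (Algebra.ofId N F) hb
  have hgal : IsGalois N F := IsGalois.of_algEquiv e
  have h1 : Module.finrank N F = 1 := by
    rw [← e.toLinearEquiv.finrank_eq, Module.finrank_self]
  rw [← Sh_map]
  refine lconcl_one (pdatP hE hW) (pdatP hE (fm_up hW)) (fun v => ?_) h
  obtain ⟨w, hw1, hw2, hw3⟩ := place_oneJ h1 v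
  have hw : w.under (𝓞 N) = v := (hw1 w).2 rfl
  refine ⟨w, hw1, hw2, ?_⟩
  rw [psP_prime, psP_prime]
  by_cases hg : Gd (Sh N a b) v
  · have hg' : Gd (Sh N a b) (w.under (𝓞 N)) := by
      rw [hw]
      exact hg
    rw [hv_up hE hW w hg', hw2, pow_one, hw]
  · rw [hv_bad hg, hv_bad]
    intro h2
    have h3 := desc_galJ hw3 h2
    rw [hw] at h3
    exact hg h3

/-- the twist by `d` of the curve `y² = x³ + a x + b`, over `F` -/
noncomputable def Tdj (F : Type*) [Field F] [Algebra K F] (a b : K) (d : 𝓞 K) :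
    WeierstrassCurve F :=
  Sh F (algebraMap K F ((d : K) ^ 2 * a)) (algebraMap K F ((d : K) ^ 3 * b))

theorem Tdj_K (a b : K) (d : 𝓞 K) :
    Tdj K a b d = ⟨0, 0, 0, (d : K) ^ 2 * a, (d : K) ^ 3 * b⟩ := rfl

theorem Tdj_def (F : Type*) [Field F] [Algebra K F] (a b : K) (d : 𝓞 K) :
    Tdj F a b d = ⟨0, 0, 0, algebraMap K F ((d : K) ^ 2 * a), algebraMap K F ((d : K) ^ 3 * b)⟩ :=
  rfl

/-- the twists are forms of the curve -/
theorem fm_Tdj {a b : K} (hW : Fm (Sh K a b)) (F : Type) [Field F] [NumberField F] [Algebra K F]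
    {d : 𝓞 K} (hd : d ≠ 0) : Fm (Tdj F a b d) := by
  have hd' : (d : K) ≠ 0 := fun h0 => hd (RingOfIntegers.ext h0)
  have h1 := fm_up (F' := F) (fm_twist hd' hW)
  rw [Sh_map] at h1
  exact h1

/-- **From `K` to a multiquadratic extension of `K`.** -/
theorem chainJ (hE : EllK) {a b : K} (hW : Fm (Sh K a b)) {F : Type} [Field F] [NumberField F]
    [Algebra K F] {A : List (𝓞 K)} (h : MQT K F A) : ∀ d : 𝓞 K, d ≠ 0 →
    (∀ e ∈ A, LConcl (Tdj K a b (e * d)) ∧ Finite (Tdj K a b (e * d)).toAffine.Point) →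
    LConcl (Tdj F a b d) ∧ Finite (Tdj F a b d).toAffine.Point := by
  induction h with
  | base F hb =>
    intro d hd hA
    obtain ⟨h1, h2⟩ := hA 1 (List.mem_singleton_self 1)
    rw [one_mul] at h1 h2
    exact ⟨lconcl_bijJ hE hb (fm_Tdj hW K hd) h1, finite_bijJ hb h2⟩
  | step F F' A α x hx hn hgen h ih =>
    intro d hd hA
    have hα : α ≠ 0 := by
      rintro rfl
      apply hn
      refine ⟨0, ?_⟩
      have h2 : x ^ 2 = 0 := by
        rw [hx]
        simp
      rw [map_zero, (pow_eq_zero_iff two_ne_zero).1 h2]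
    have hα' : algebraMap K F (α : K) ≠ 0 := by
      rw [Ne, map_eq_zero]
      exact fun h0 => hα (RingOfIntegers.ext h0)
    have hx' : x ^ 2 = algebraMap F F' (algebraMap K F (α : K)) := by
      rw [hx, ← IsScalarTower.algebraMap_apply K F F']
    obtain ⟨h1, h2⟩ := ih d hd fun e he => hA e (List.mem_append_left _ he)
    obtain ⟨h3, h4⟩ := ih (α * d) (mul_ne_zero hα hd) fun e he => by
      have h5 := hA (α * e) (List.mem_append_right _ (List.mem_map_of_mem he))
      rw [show α * e * d = e * (α * d) by ring] at h5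
      exact h5
    have e1 : Tdj F a b (α * d) =
        Sh F (algebraMap K F (α : K) ^ 2 * algebraMap K F ((d : K) ^ 2 * a))
          (algebraMap K F (α : K) ^ 3 * algebraMap K F ((d : K) ^ 3 * b)) := by
      have e3 : ((α * d : 𝓞 K) : K) = (α : K) * (d : K) := by push_cast; rfl
      have e4 : algebraMap K F (((α * d : 𝓞 K) : K) ^ 2 * a) =
          algebraMap K F (α : K) ^ 2 * algebraMap K F ((d : K) ^ 2 * a) := by
        rw [e3, mul_pow, mul_assoc, map_mul (algebraMap K F), map_pow (algebraMap K F)]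
      have e6 : algebraMap K F (((α * d : 𝓞 K) : K) ^ 3 * b) =
          algebraMap K F (α : K) ^ 3 * algebraMap K F ((d : K) ^ 3 * b) := by
        rw [e3, mul_pow, mul_assoc, map_mul (algebraMap K F), map_pow (algebraMap K F)]
      rw [Tdj, e4, e6]
    have e2 : Tdj F' a b d = Sh F' (algebraMap F F' (algebraMap K F ((d : K) ^ 2 * a)))
        (algebraMap F F' (algebraMap K F ((d : K) ^ 3 * b))) := by
      rw [← IsScalarTower.algebraMap_apply K F F', ← IsScalarTower.algebraMap_apply K F F']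
      rfl
    rw [e1] at h3 h4
    rw [e2]
    exact ⟨lconcl_quad hgen hα' hx' (fm_Tdj hW F hd) hE (finrank_two' hn hgen) h1 h3,
      finite_stepJ hx' hn hgen h2 h4⟩

end Pool.Agent.Lib.MP_1a91b9_ntY
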