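import Pool.Agent.Lib.MP_1a91b9_ntW.J.TwK
import Pool.Agent.Lib.MP_1a91b9_nuI.Ho.Use

/-!
# The rank part over multiquadratic extensions: curves with complex multiplication by any order

The conclusion `RkZ` is invariant under the isogeny with kernel `{0, (0, 0)}` from
`y² = x³ + a x² + b x` to `y² = x³ - 2 a x² + (a² - 4 b) x` (`RkZ.two`), hence so is the result for the
quadratic twists over the extensions generated by `l`-th roots (`MQG.isg`). This passes from the maximal order to the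
orders of conductor `2` in `ℚ(i)`, `ℚ(√-3)` and `ℚ(√-7)` (`isg_i`, `isg_3`, `isg_7`), whose curves have
the invariants `66³`, `2 · 30³` and `255³`.
-/

set_option autoImplicit false

namespace Pool.Agent.Lib.MP_1a91b9_ntY

open NumberField WeierstrassCurve
open Pool.Agent.Lib.MP_1a91b9_nuI (HasJ E2 Rel2 Isg E2_dual LFunction_two hasJ_change)
open Pool.Agent.Lib.MP_1a91b9_ntL (crv)
open Pool.Agent.Lib.MP_1a91b9_ntW.J (RkZ PropGE MQG MQW twd_crv twd_hasJ)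

section
variable {F : Type*} [Field F] [CharZero F] {a b : F}

theorem rel2 (hb : b ≠ 0) (hb' : a ^ 2 - 4 * b ≠ 0) :
    Rel2 (E2 a b) (E2 (-2 * a) (a ^ 2 - 4 * b)) where
  two := two_ne_zero
  a₁ := rfl
  a₃ := rfl
  a₆ := rfl
  a₁' := rfl
  a₃' := rfl
  a₆' := rfl
  a₂' := rfl
  a₄' := rfl
  b0 := hb
  b0' := hb'

/-- Both curves have finitely many points, or none of them has. -/
theorem fin2_iff (hb : b ≠ 0) (hb' : a ^ 2 - 4 * b ≠ 0) :
    Finite (E2 (-2 * a) (a ^ 2 - 4 * b)).toAffine.Point ↔ Finite (E2 a b).toAffine.Point := by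
  constructor
  · intro h
    exact (Isg.ofRel2 (rel2 hb hb')).finite h
  · intro h
    have h3 : (-2 * a) ^ 2 - 4 * (a ^ 2 - 4 * b) ≠ 0 := by
      have h4 : (-2 * a) ^ 2 - 4 * (a ^ 2 - 4 * b) = 2 ^ 4 * b := by ring
      rw [h4]
      exact mul_ne_zero (pow_ne_zero 4 two_ne_zero) hb
    refine (Isg.ofRel2 (rel2 hb' h3)).finite ?_
    rw [E2_dual two_ne_zero]
    exact (Isg.ofChange _ rfl).finite h

end

/-- **The conclusion is invariant under a 2-isogeny.** -/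
theorem RkZ.two {F : Type} [Field F] [NumberField F] {a b : F} {j j' : ℤ} (hb : b ≠ 0)
    (hb' : a ^ 2 - 4 * b ≠ 0) (hj : HasJ (E2 a b) j)
    (hj' : HasJ (E2 (-2 * a) (a ^ 2 - 4 * b)) j') :
    RkZ (E2 (-2 * a) (a ^ 2 - 4 * b)) ↔ RkZ (E2 a b) := by
  have h1 : ∀ s, (E2 (-2 * a) (a ^ 2 - 4 * b)).LSeries s = (E2 a b).LSeries s := by
    intro s
    unfold WeierstrassCurve.LSeries
    rw [LFunction_two a b j j' hj hj']
  unfold RkZ
  rw [fin2_iff hb hb']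
  simp only [h1]

/-- **The result is invariant under a 2-isogeny.** -/
theorem MQG.isg {K : Type} [Field K] [NumberField K] {l : ℕ} {H : 𝓞 K → 𝓞 K → Prop} {a b : K}
    {c : ℝ} {j j' : ℤ} (hb : b ≠ 0) (hb' : a ^ 2 - 4 * b ≠ 0) (hj : HasJ (crv a b) j)
    (hj' : HasJ (crv (-2 * a) (a ^ 2 - 4 * b)) j') (h : MQG K l H a b c) :
    MQG K l H (-2 * a) (a ^ 2 - 4 * b) c := by
  intro F _ _ _ hF m u hmu
  have h1 := h F hF m u hmu
  have e : (fun d : 𝓞 K => RkZ (⟨0, algebraMap K F (d * (-2 * a)), 0,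
      algebraMap K F ((d : K) ^ 2 * (a ^ 2 - 4 * b)), 0⟩ : WeierstrassCurve F)) =
      fun d : 𝓞 K => RkZ (⟨0, algebraMap K F (d * a), 0, algebraMap K F ((d : K) ^ 2 * b), 0⟩ :
        WeierstrassCurve F) := by
    funext d
    by_cases hd : (d : K) = 0
    · rw [hd]
      simp only [zero_mul, ne_eq, OfNat.ofNat_ne_zero, not_false_eq_true, zero_pow]
    have e1 : ∀ x y : K, (⟨0, algebraMap K F (d * x), 0, algebraMap K F ((d : K) ^ 2 * y), 0⟩ :
        WeierstrassCurve F) = E2 (algebraMap K F (d * x)) (algebraMap K F ((d : K) ^ 2 * y)) :=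
      fun _ _ => rfl
    have e2 : ∀ x y : K, E2 (algebraMap K F (d * x)) (algebraMap K F ((d : K) ^ 2 * y)) =
        (Pool.Agent.Lib.MP_1a91b9_ntW.J.twd (crv x y) (d : K)).map (algebraMap K F) := by
      intro x y
      rw [twd_crv]
      exact WeierstrassCurve.ext (map_zero _).symm rfl (map_zero _).symm rfl (map_zero _).symm
    have e3 : E2 (algebraMap K F (d * (-2 * a))) (algebraMap K F ((d : K) ^ 2 * (a ^ 2 - 4 * b))) =
        E2 (-2 * algebraMap K F (d * a))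
          (algebraMap K F (d * a) ^ 2 - 4 * algebraMap K F ((d : K) ^ 2 * b)) := by
      congr 1
      · simp only [map_mul, map_neg, map_ofNat]
        ring
      · simp only [map_mul, map_sub, map_pow, map_ofNat]
        ring
    have k1 : HasJ (E2 (algebraMap K F (d * a)) (algebraMap K F ((d : K) ^ 2 * b))) j := by
      rw [e2]
      exact Pool.Agent.Lib.MP_1a91b9_ntW.J.hasJ_map _ (twd_hasJ hj _)
    have k2 : HasJ (E2 (-2 * algebraMap K F (d * a))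
        (algebraMap K F (d * a) ^ 2 - 4 * algebraMap K F ((d : K) ^ 2 * b))) j' := by
      rw [← e3, e2]
      exact Pool.Agent.Lib.MP_1a91b9_ntW.J.hasJ_map _ (twd_hasJ hj' _)
    have k3 : algebraMap K F ((d : K) ^ 2 * b) ≠ 0 :=
      (map_ne_zero _).2 (mul_ne_zero (pow_ne_zero 2 hd) hb)
    have k4 : algebraMap K F (d * a) ^ 2 - 4 * algebraMap K F ((d : K) ^ 2 * b) ≠ 0 := by
      have h5 : algebraMap K F (d * a) ^ 2 - 4 * algebraMap K F ((d : K) ^ 2 * b) =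
          algebraMap K F ((d : K) ^ 2 * (a ^ 2 - 4 * b)) := by
        simp only [map_mul, map_sub, map_pow, map_ofNat]
        ring
      rw [h5]
      exact (map_ne_zero _).2 (mul_ne_zero (pow_ne_zero 2 hd) hb')
    rw [e1, e1, e3]
    exact propext (RkZ.two k3 k4 k1 k2)
  rw [e]
  exact h1

section
variable {K : Type*} [Field K]

theorem crv_c₄ (a b : K) : (crv a b).c₄ = 16 * (a ^ 2 - 3 * b) := by
  simp only [crv, WeierstrassCurve.c₄, WeierstrassCurve.b₂, WeierstrassCurve.b₄]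
  ring

theorem crv_c₆ (a b : K) : (crv a b).c₆ = 32 * a * (9 * b - 2 * a ^ 2) := by
  simp only [crv, WeierstrassCurve.c₆, WeierstrassCurve.b₂, WeierstrassCurve.b₄,
    WeierstrassCurve.b₆]
  ring

theorem crv_Δ (a b : K) : (crv a b).Δ = 16 * b ^ 2 * (a ^ 2 - 4 * b) := by
  simp only [crv, WeierstrassCurve.Δ, WeierstrassCurve.b₂, WeierstrassCurve.b₄,
    WeierstrassCurve.b₆, WeierstrassCurve.b₈]
  ring

theorem hasJ_crv {a b : K} {j : ℤ}
    (h : (16 * (a ^ 2 - 3 * b)) ^ 3 = (j : K) * (16 * b ^ 2 * (a ^ 2 - 4 * b))) :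
    HasJ (crv a b) j := by
  unfold HasJ
  rw [crv_c₄, crv_Δ]
  exact h

/-- A curve with the invariants `e² c₄`, `e³ c₆` of `y² = x³ + a x² + b x` is isomorphic to
`y² = x³ + e a x² + e² b x`. -/
theorem crv_of_c [CharZero K] (W : WeierstrassCurve K) {a b e : K}
    (h4 : W.c₄ = e ^ 2 * (crv a b).c₄) (h6 : W.c₆ = e ^ 3 * (crv a b).c₆) :
    ∃ C : VariableChange K, C • W = crv (e * a) (e ^ 2 * b) := by
  have n2 : (2 : K) ≠ 0 := two_ne_zero
  have n3 : (3 : K) ≠ 0 := three_ne_zero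
  have n48 : (48 : K) ≠ 0 := by norm_num
  have n864 : (864 : K) ≠ 0 := by norm_num
  let r : K := (e * a - W.b₂ / 4) / 3
  let C : VariableChange K := ⟨1, r, -W.a₁ / 2, -(W.a₃ + r * W.a₁) / 2⟩
  refine ⟨C, ?_⟩
  have hr : 3 * r = e * a - W.b₂ / 4 := by
    show 3 * ((e * a - W.b₂ / 4) / 3) = _
    field_simp
  have a1 : (C • W).a₁ = 0 := by
    rw [variableChange_a₁]
    show ((1 : Kˣ)⁻¹ : Kˣ) * (W.a₁ + 2 * (-W.a₁ / 2)) = (0 : K)
    rw [inv_one, Units.val_one]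
    ring
  have a3 : (C • W).a₃ = 0 := by
    rw [variableChange_a₃]
    show (((1 : Kˣ)⁻¹ : Kˣ) : K) ^ 3 * (W.a₃ + r * W.a₁ + 2 * (-(W.a₃ + r * W.a₁) / 2)) = (0 : K)
    ring
  have a2 : (C • W).a₂ = e * a := by
    rw [variableChange_a₂]
    show (((1 : Kˣ)⁻¹ : Kˣ) : K) ^ 2 * (W.a₂ - -W.a₁ / 2 * W.a₁ + 3 * r - (-W.a₁ / 2) ^ 2) = e * a
    rw [inv_one, Units.val_one, hr, WeierstrassCurve.b₂]
    ring
  have c4 : (C • W).c₄ = e ^ 2 * (crv a b).c₄ := by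
    rw [variableChange_c₄]
    show (((1 : Kˣ)⁻¹ : Kˣ) : K) ^ 4 * W.c₄ = _
    rw [inv_one, Units.val_one, one_pow, one_mul, h4]
  have c6 : (C • W).c₆ = e ^ 3 * (crv a b).c₆ := by
    rw [variableChange_c₆]
    show (((1 : Kˣ)⁻¹ : Kˣ) : K) ^ 6 * W.c₆ = _
    rw [inv_one, Units.val_one, one_pow, one_mul, h6]
  have b2 : (C • W).b₂ = 4 * (e * a) := by
    rw [WeierstrassCurve.b₂, a1, a2]
    ring
  have b4 : (C • W).b₄ = 2 * (C • W).a₄ := by
    rw [WeierstrassCurve.b₄, a1, a3]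
    ring
  have b6 : (C • W).b₆ = 4 * (C • W).a₆ := by
    rw [WeierstrassCurve.b₆, a3]
    ring
  rw [WeierstrassCurve.c₄, b2, b4, crv_c₄] at c4
  have a4 : (C • W).a₄ = e ^ 2 * b := by
    refine mul_left_cancel₀ n48 ?_
    linear_combination -c4
  rw [WeierstrassCurve.c₆, b2, b4, b6, a4, crv_c₆] at c6
  have a6 : (C • W).a₆ = 0 := by
    refine (mul_eq_zero.1 ?_).resolve_left n864
    linear_combination -c6
  exact WeierstrassCurve.ext a1 a2 a3 a4 a6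

/-- The curves with the `j`-invariant of `y² = x³ + a x² + b x`, which is not `0` or `1728`, are its
quadratic twists. -/
theorem crv_of_j [CharZero K] {W : WeierstrassCurve K} (hW : W.Δ ≠ 0) {a b : K} {j : ℤ}
    (hj : HasJ W j) (hj' : HasJ (crv a b) j) (hΔ : (crv a b).Δ ≠ 0) (h4 : (crv a b).c₄ ≠ 0)
    (h6 : (crv a b).c₆ ≠ 0) :
    ∃ e : K, e ≠ 0 ∧ ∃ C : VariableChange K, C • W = crv (e * a) (e ^ 2 * b) := by
  unfold HasJ at hj hj'
  have r1 := W.c_relation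
  have r2 := (crv a b).c_relation
  have hj0 : (j : K) ≠ 0 := by
    intro h0
    rw [h0, zero_mul] at hj'
    exact h4 (pow_eq_zero_iff three_ne_zero |>.1 hj')
  have w4 : W.c₄ ≠ 0 := by
    intro h0
    rw [h0] at hj
    have h1 : (j : K) * W.Δ = 0 := by rw [← hj]; ring
    exact (mul_ne_zero hj0 hW) h1
  -- `c₄(W)³ Δ' = c₄'³ Δ(W)`
  have k1 : W.c₄ ^ 3 * (crv a b).Δ = (crv a b).c₄ ^ 3 * W.Δ := by
    rw [hj, hj']
    ring
  -- `c₆(W)² c₄'³ = c₆'² c₄(W)³`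
  have k2 : W.c₆ ^ 2 * (crv a b).c₄ ^ 3 = (crv a b).c₆ ^ 2 * W.c₄ ^ 3 := by
    linear_combination 1728 * k1 + (crv a b).c₄ ^ 3 * r1 - W.c₄ ^ 3 * r2
  have w6 : W.c₆ ≠ 0 := by
    intro h0
    rw [h0] at k2
    have h1 : (crv a b).c₆ ^ 2 * W.c₄ ^ 3 = 0 := by rw [← k2]; ring
    exact (mul_ne_zero (pow_ne_zero 2 h6) (pow_ne_zero 3 w4)) h1
  have he : (W.c₆ * (crv a b).c₄) / (W.c₄ * (crv a b).c₆) ≠ 0 :=
    div_ne_zero (mul_ne_zero w6 h4) (mul_ne_zero w4 h6)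
  refine ⟨_, he, crv_of_c W ?_ ?_⟩
  · field_simp
    linear_combination -k2
  · field_simp
    linear_combination -k2

end

section
variable {K : Type} [Field K] [NumberField K] {l : ℕ} {H : 𝓞 K → 𝓞 K → Prop} {c : ℝ}

theorem mqw_of_isg {a b : K} {j j' : ℤ} (hb : b ≠ 0) (hb' : a ^ 2 - 4 * b ≠ 0)
    (hj : HasJ (crv a b) j) (hj' : HasJ (crv (-2 * a) (a ^ 2 - 4 * b)) j')
    (h4 : (crv (-2 * a) (a ^ 2 - 4 * b)).c₄ ≠ 0) (h6 : (crv (-2 * a) (a ^ 2 - 4 * b)).c₆ ≠ 0)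
    (h : ∀ e : K, e ≠ 0 → MQG K l H (e * a) (e ^ 2 * b) c) {W : WeierstrassCurve K} (hW : W.Δ ≠ 0)
    (hWj : HasJ W j') : MQW K l H W c := by
  have hΔ : (crv (-2 * a) (a ^ 2 - 4 * b)).Δ ≠ 0 := by
    rw [crv_Δ]
    have e1 : (16 : K) * (a ^ 2 - 4 * b) ^ 2 * ((-2 * a) ^ 2 - 4 * (a ^ 2 - 4 * b)) =
        2 ^ 8 * ((a ^ 2 - 4 * b) ^ 2 * b) := by ring
    rw [e1]
    exact mul_ne_zero (pow_ne_zero 8 two_ne_zero) (mul_ne_zero (pow_ne_zero 2 hb') hb)
  obtain ⟨e, he, C, hC⟩ := crv_of_j hW hWj hj' hΔ h4 h6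
  have t1 : HasJ (crv (e * a) (e ^ 2 * b)) j := by
    have h1 := twd_hasJ hj e
    rwa [twd_crv] at h1
  have t2 : HasJ (crv (e * (-2 * a)) (e ^ 2 * (a ^ 2 - 4 * b))) j' := by
    have h1 := twd_hasJ hj' e
    rwa [twd_crv] at h1
  have q1 : e * (-2 * a) = -2 * (e * a) := by ring
  have q2 : e ^ 2 * (a ^ 2 - 4 * b) = (e * a) ^ 2 - 4 * (e ^ 2 * b) := by ring
  have n1 : e ^ 2 * b ≠ 0 := mul_ne_zero (pow_ne_zero 2 he) hb
  have n2 : (e * a) ^ 2 - 4 * (e ^ 2 * b) ≠ 0 := by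
    rw [← q2]
    exact mul_ne_zero (pow_ne_zero 2 he) hb'
  rw [q1, q2] at hC t2
  exact (MQG.isg n1 n2 t1 t2 (h e he)).mqw_vc t2 hC

/-- **`j = 287496`**, the order of conductor `2` in `ℚ(i)`. -/
theorem isg_i (h : ∀ e : K, e ≠ 0 → MQG K l H (3 * e) (2 * e ^ 2) c) {W : WeierstrassCurve K}
    (hW : W.Δ ≠ 0) (hWj : HasJ W 287496) : MQW K l H W c := by
  refine mqw_of_isg (a := 3) (b := 2) (j := 1728) (j' := 287496) (by norm_num) (by norm_num)
    (hasJ_crv ?_) (hasJ_crv ?_) ?_ ?_ (fun e he => ?_) hW hWj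
  · push_cast
    norm_num
  · push_cast
    norm_num
  · rw [crv_c₄]
    norm_num
  · rw [crv_c₆]
    norm_num
  · rw [mul_comm e 3, mul_comm (e ^ 2) 2]
    exact h e he

/-- **`j = 54000`**, the order of conductor `2` in `ℚ(√-3)`. -/
theorem isg_3 (h : ∀ e : K, e ≠ 0 → MQG K l H (-3 * e) (3 * e ^ 2) c) {W : WeierstrassCurve K}
    (hW : W.Δ ≠ 0) (hWj : HasJ W 54000) : MQW K l H W c := by
  refine mqw_of_isg (a := -3) (b := 3) (j := 0) (j' := 54000) (by norm_num) (by norm_num)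
    (hasJ_crv ?_) (hasJ_crv ?_) ?_ ?_ (fun e he => ?_) hW hWj
  · push_cast
    norm_num
  · push_cast
    norm_num
  · rw [crv_c₄]
    norm_num
  · rw [crv_c₆]
    norm_num
  · rw [mul_comm e (-3), mul_comm (e ^ 2) 3]
    exact h e he

/-- **`j = 255³`**, the order of conductor `2` in `ℚ(√-7)`. -/
theorem isg_7 (h : ∀ e : K, e ≠ 0 → MQG K l H (21 * e) (112 * e ^ 2) c) {W : WeierstrassCurve K}
    (hW : W.Δ ≠ 0) (hWj : HasJ W 16581375) : MQW K l H W c := by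
  refine mqw_of_isg (a := 21) (b := 112) (j := -3375) (j' := 16581375) (by norm_num)
    (by norm_num) (hasJ_crv ?_) (hasJ_crv ?_) ?_ ?_ (fun e he => ?_) hW hWj
  · push_cast
    norm_num
  · push_cast
    norm_num
  · rw [crv_c₄]
    norm_num
  · rw [crv_c₆]
    norm_num
  · rw [mul_comm e 21, mul_comm (e ^ 2) 112]
    exact h e he

end

end Pool.Agent.Lib.MP_1a91b9_ntY
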