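import Pool.Agent.Lib.MP_1a91b9_ntY.Chj

/-!
# Forms of the curve with a quadratic term

`Tdq F p a b d`: the twist by `d` of the curve `y² = x³ + p x² + a x + b`, over the field `F`. `chainQ`: the same as `chainJ` for these
curves.
-/

set_option autoImplicit false

namespace Pool.Agent.Lib.MP_1a91b9_ntY

open NumberField IsDedekindDomain WeierstrassCurve
  Pool.Agent.Lib.MP_1a91b9_nt Pool.Agent.Lib.MP_1a91b9_nuT
open Pool.Agent.Lib.MP_1a91b9_nuX.DB Pool.Agent.Lib.MP_1a91b9_nuX.GL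
  Pool.Agent.Lib.MP_1a91b9_nuX.PG Pool.Agent.Lib.MP_1a91b9_nuX.PH
open Pool.Agent.Lib.MP_1a91b9_nuX Pool.Agent.Lib.MP_1a91b9_nuX.LG
open Pool.Agent.Lib.MP_1a91b9_ntM
open Pool.Agent.Lib.MP_1a91b9_ntN.G (MQT)

universe u

/-- finiteness and isomorphic curves -/
theorem finite_iso {F : Type*} [Field F] {W W' : WeierstrassCurve F} (C : VariableChange F)
    (hC : C • W = W') (h : Finite W.toAffine.Point) : Finite W'.toAffine.Point := by
  rw [← hC]
  exact Finite.of_injective _ (vcFun_bijective W C).1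

/-- finiteness and isomorphic curves -/
theorem finite_iso' {F : Type*} [Field F] {W W' : WeierstrassCurve F} (C : VariableChange F)
    (hC : C • W = W') (h : Finite W'.toAffine.Point) : Finite W.toAffine.Point := by
  rw [← hC] at h
  exact Finite.of_surjective _ (vcFun_bijective W C).2

section
variable [CD] {F : Type u} [Field F] [NumberField F] [Algebra K F] {W W' : WeierstrassCurve F}

omit [NumberField F] in
theorem fm_iso (C : VariableChange F) (hC : C • W = W') (h : Fm W) : Fm W' := by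
  obtain ⟨ι, D, hD⟩ := h
  refine ⟨ι, C.map (ι : F →+* Kb) * D, ?_⟩
  rw [mul_smul, hD, ← hC]
  exact WeierstrassCurve.map_variableChange _ _ _

theorem psP_iso (C : VariableChange F) (hC : C • W = W') : psP W = psP W' := by
  have h : Hv W = Hv W' := funext fun w => hv_iso C hC w
  funext I
  rw [psP, psP, h]

/-- the conclusion for the L-series of isomorphic curves -/
theorem lconcl_iso (hE : EllK) (hW : Fm W) (C : VariableChange F) (hC : C • W = W')
    (h : LConcl W) : LConcl W' := by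
  obtain ⟨g, hg, hg2, hg1⟩ := h
  refine ⟨g, hg, fun s hs => ?_, hg1⟩
  rw [hg2 s hs, (pdatP hE hW).ser s hs, (pdatP hE (fm_iso C hC hW)).ser s hs, psP_iso C hC]

end

/-- the translation which removes the quadratic term -/
theorem shift_smul {F : Type*} [Field F] [CharZero F] (P a b : F) :
    (⟨1, -P / 3, 0, 0⟩ : VariableChange F) • (⟨0, P, 0, a, b⟩ : WeierstrassCurve F) =
      Sh F (a - P ^ 2 / 3) (b - P * a / 3 + 2 * P ^ 3 / 27) := by
  have h3 : (3 : F) ≠ 0 := three_ne_zero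
  refine WeierstrassCurve.ext ?_ ?_ ?_ ?_ ?_
  · rw [variableChange_a₁]
    show ((1⁻¹ : Fˣ) : F) * (0 + 2 * 0) = 0
    ring
  · rw [variableChange_a₂]
    show ((1⁻¹ : Fˣ) : F) ^ 2 * (P - 0 * 0 + 3 * (-P / 3) - 0 ^ 2) = 0
    field_simp
    ring
  · rw [variableChange_a₃]
    show ((1⁻¹ : Fˣ) : F) ^ 3 * (0 + -P / 3 * 0 + 2 * 0) = 0
    ring
  · rw [variableChange_a₄]
    show ((1⁻¹ : Fˣ) : F) ^ 4 * (a - 0 * 0 + 2 * (-P / 3) * P - (0 + -P / 3 * 0) * 0 +
      3 * (-P / 3) ^ 2 - 2 * 0 * 0) = a - P ^ 2 / 3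
    rw [inv_one, Units.val_one]
    field_simp
    ring
  · rw [variableChange_a₆]
    show ((1⁻¹ : Fˣ) : F) ^ 6 * (b + -P / 3 * a + (-P / 3) ^ 2 * P + (-P / 3) ^ 3 - 0 * 0 -
      0 ^ 2 - -P / 3 * 0 * 0) = b - P * a / 3 + 2 * P ^ 3 / 27
    rw [inv_one, Units.val_one]
    field_simp
    ring

section
variable [CD]

/-- the twist by `d` of the curve `y² = x³ + p x² + a x + b`, over `F` -/
noncomputable def Tdq (F : Type*) [Field F] [Algebra K F] (p a b : K) (d : 𝓞 K) :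
    WeierstrassCurve F :=
  ⟨0, algebraMap K F ((d : K) * p), 0, algebraMap K F ((d : K) ^ 2 * a),
    algebraMap K F ((d : K) ^ 3 * b)⟩

theorem Tdq_K (p a b : K) (d : 𝓞 K) :
    Tdq K p a b d = ⟨0, (d : K) * p, 0, (d : K) ^ 2 * a, (d : K) ^ 3 * b⟩ := rfl

/-- the curve without quadratic term -/
theorem Tdq_shift (F : Type*) [Field F] [CharZero F] [Algebra K F] (p a b : K) (d : 𝓞 K) :
    (⟨1, -(algebraMap K F ((d : K) * p)) / 3, 0, 0⟩ : VariableChange F) • Tdq F p a b d =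
      Tdj F (a - p ^ 2 / 3) (b - p * a / 3 + 2 * p ^ 3 / 27) d := by
  rw [Tdq, shift_smul, Tdj]
  congr 1
  · have e : (d : K) ^ 2 * (a - p ^ 2 / 3) = (d : K) ^ 2 * a - ((d : K) * p) ^ 2 / 3 := by ring
    rw [e, map_sub, map_div₀, map_ofNat, map_pow (algebraMap K F) ((d : K) * p) 2]
  · have e : (d : K) ^ 3 * (b - p * a / 3 + 2 * p ^ 3 / 27) =
        (d : K) ^ 3 * b - ((d : K) * p) * ((d : K) ^ 2 * a) / 3 + 2 * ((d : K) * p) ^ 3 / 27 := by
      ring
    rw [e, map_add, map_sub, map_div₀, map_div₀, map_ofNat, map_ofNat,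
      map_mul (algebraMap K F) ((d : K) * p) ((d : K) ^ 2 * a), map_mul (algebraMap K F) 2,
      map_ofNat, map_pow (algebraMap K F) ((d : K) * p) 3]

/-- **From `K` to a multiquadratic extension of `K`**, curves with a quadratic term. -/
theorem chainQ (hE : EllK) {p a b : K} (hW : Fm (⟨0, p, 0, a, b⟩ : WeierstrassCurve K)) {F : Type}
    [Field F] [NumberField F] [Algebra K F] {A : List (𝓞 K)} (h : MQT K F A) :
    ∀ d : 𝓞 K, d ≠ 0 →
    (∀ e ∈ A, LConcl (Tdq K p a b (e * d)) ∧ Finite (Tdq K p a b (e * d)).toAffine.Point) →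
    LConcl (Tdq F p a b d) ∧ Finite (Tdq F p a b d).toAffine.Point := by
  intro d hd hA
  have hW' : Fm (Sh K (a - p ^ 2 / 3) (b - p * a / 3 + 2 * p ^ 3 / 27)) :=
    fm_iso _ (shift_smul p a b) hW
  have hne : ∀ e ∈ A, e ≠ 0 := h.ok.ne
  have key : ∀ (F : Type) [Field F] [NumberField F] [Algebra K F] (d : 𝓞 K), d ≠ 0 →
      Fm (Tdq F p a b d) := by
    intro F _ _ _ d hd
    have h1 := fm_Tdj hW' F hd
    refine fm_iso (⟨1, -(algebraMap K F ((d : K) * p)) / 3, 0, 0⟩ : VariableChange F)⁻¹ ?_ h1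
    rw [← Tdq_shift F p a b d, inv_smul_smul]
  obtain ⟨h1, h2⟩ := chainJ hE hW' h d hd fun e he => by
    obtain ⟨h3, h4⟩ := hA e he
    exact ⟨lconcl_iso hE (key K _ (mul_ne_zero (hne e he) hd)) _ (Tdq_shift K p a b _) h3,
      finite_iso _ (Tdq_shift K p a b _) h4⟩
  refine ⟨?_, finite_iso' _ (Tdq_shift F p a b d) h2⟩
  refine lconcl_iso hE (fm_Tdj hW' F hd)
    (⟨1, -(algebraMap K F ((d : K) * p)) / 3, 0, 0⟩ : VariableChange F)⁻¹ ?_ h1
  rw [← Tdq_shift F p a b d, inv_smul_smul]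

end

end Pool.Agent.Lib.MP_1a91b9_ntY
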