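import Pool.Agent.Lib.MP_1a91b9_ntM.Tw

/-!
# Forms of the curve in short Weierstrass form

`Sh F a b`: the curve `y² = x³ + a x + b`. If it is a form of the curve `E`, the isomorphism over the algebraic closure is `Ds s` for some
`s ≠ 0`, and `Ds (r * s)` is the isomorphism to its twist by `r ^ 2`.
-/

set_option autoImplicit false

namespace Pool.Agent.Lib.MP_1a91b9_ntY

open NumberField IsDedekindDomain WeierstrassCurve
  Pool.Agent.Lib.MP_1a91b9_nt Pool.Agent.Lib.MP_1a91b9_nuT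
open Pool.Agent.Lib.MP_1a91b9_nuX.DB Pool.Agent.Lib.MP_1a91b9_nuX.GL
  Pool.Agent.Lib.MP_1a91b9_nuX.PG Pool.Agent.Lib.MP_1a91b9_nuX.PH
open Pool.Agent.Lib.MP_1a91b9_ntM

universe u

/-- the curve `y² = x³ + a x + b` over `F` -/
def Sh (F : Type*) [Field F] (a b : F) : WeierstrassCurve F := ⟨0, 0, 0, a, b⟩

theorem Sh_map {F F' : Type*} [Field F] [Field F'] [Algebra F F'] (a b : F) :
    (Sh F a b).map (algebraMap F F') = Sh F' (algebraMap F F' a) (algebraMap F F' b) := by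
  refine WeierstrassCurve.ext ?_ ?_ ?_ rfl rfl
  · exact map_zero _
  · exact map_zero _
  · exact map_zero _

theorem Ds_Sh {F : Type*} [Field F] (s : F) (hs : s ≠ 0) (a b : F) :
    Ds s hs • Sh F a b = Sh F (s ^ 4 * a) (s ^ 6 * b) := Ds_smul s hs a b

/-- the isomorphisms between curves in short form -/
theorem sh_var {L : Type*} [Field L] [CharZero L] {a b a' b' : L} {D : VariableChange L}
    (h : D • Sh L a b = Sh L a' b') : ∃ (s : L) (hs : s ≠ 0), D = Ds s hs := by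
  have hu : ((D.u⁻¹ : Lˣ) : L) ≠ 0 := Units.ne_zero _
  have h1 := congrArg WeierstrassCurve.a₁ h
  have h2 := congrArg WeierstrassCurve.a₂ h
  have h3 := congrArg WeierstrassCurve.a₃ h
  rw [variableChange_a₁] at h1
  rw [variableChange_a₂] at h2
  rw [variableChange_a₃] at h3
  have e1 : ((D.u⁻¹ : Lˣ) : L) * (0 + 2 * D.s) = 0 := h1
  have hs : D.s = 0 := by
    rcases mul_eq_zero.1 e1 with h4 | h4
    · exact absurd h4 hu
    · rw [zero_add] at h4
      exact (mul_eq_zero.1 h4).resolve_left two_ne_zero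
  have e2 : ((D.u⁻¹ : Lˣ) : L) ^ 2 * (0 - D.s * 0 + 3 * D.r - D.s ^ 2) = 0 := h2
  have hr : D.r = 0 := by
    rcases mul_eq_zero.1 e2 with h4 | h4
    · exact absurd h4 (pow_ne_zero 2 hu)
    · rw [hs] at h4
      have h5 : 3 * D.r = 0 := by linear_combination h4
      exact (mul_eq_zero.1 h5).resolve_left three_ne_zero
  have e3 : ((D.u⁻¹ : Lˣ) : L) ^ 3 * (0 + D.r * 0 + 2 * D.t) = 0 := h3
  have ht : D.t = 0 := by
    rcases mul_eq_zero.1 e3 with h4 | h4
    · exact absurd h4 (pow_ne_zero 3 hu)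
    · have h5 : 2 * D.t = 0 := by linear_combination h4
      exact (mul_eq_zero.1 h5).resolve_left two_ne_zero
  refine ⟨((D.u⁻¹ : Lˣ) : L), hu, ?_⟩
  have e4 : (Units.mk0 ((D.u⁻¹ : Lˣ) : L) hu)⁻¹ = D.u := by
    rw [Units.mk0_val, inv_inv]
  refine VariableChange.ext ?_ hr hs ht
  show D.u = (Units.mk0 ((D.u⁻¹ : Lˣ) : L) hu)⁻¹
  exact e4.symm

section
variable [CD]

/-- the curve `E` is in short form -/
theorem EF_sh : EF Kb = Sh Kb (algebraMap K Kb (E K).a₄) (algebraMap K Kb (E K).a₆) := by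
  refine WeierstrassCurve.ext ?_ ?_ ?_ rfl rfl
  · exact map_zero _
  · exact map_zero _
  · exact map_zero _

theorem charZero_Kb : CharZero Kb := charZero_of_injective_algebraMap (algebraMap K Kb).injective

section
variable {F : Type u} [Field F] [NumberField F] [Algebra K F]

/-- the isomorphism over the algebraic closure -/
theorem fm_Ds [Algebra F Kb] [IsScalarTower K F Kb] {a b : F} (h : Fm (Sh F a b)) :
    ∃ (s : Kb) (hs : s ≠ 0), Ds s hs • EF Kb = (Sh F a b).map (algebraMap F Kb) := by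
  obtain ⟨D, hD⟩ := fm_all h (IsScalarTower.toAlgHom K F Kb)
  have hD' : D • EF Kb = (Sh F a b).map (algebraMap F Kb) := hD
  have h1 := hD'
  rw [EF_sh, Sh_map] at h1
  have hc := charZero_Kb
  obtain ⟨s, hs, rfl⟩ := sh_var h1
  exact ⟨s, hs, hD'⟩

omit [NumberField F] [Algebra K F] in
/-- the isomorphism for the twist -/
theorem Ds_twist [Algebra F Kb] {a b α : F} {s r : Kb} (hs0 : s ≠ 0) (hr0 : r ≠ 0)
    (hr : r ^ 2 = algebraMap F Kb α) (h : Ds s hs0 • EF Kb = (Sh F a b).map (algebraMap F Kb)) :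
    Ds (r * s) (mul_ne_zero hr0 hs0) • EF Kb =
      (Sh F (α ^ 2 * a) (α ^ 3 * b)).map (algebraMap F Kb) := by
  rw [EF_sh, Ds_Sh, Sh_map] at h
  have h4 : s ^ 4 * algebraMap K Kb (E K).a₄ = algebraMap F Kb a :=
    congrArg WeierstrassCurve.a₄ h
  have h6 : s ^ 6 * algebraMap K Kb (E K).a₆ = algebraMap F Kb b :=
    congrArg WeierstrassCurve.a₆ h
  have e4 : r ^ 4 = algebraMap F Kb (α ^ 2) := by
    rw [map_pow, ← hr]
    ring
  have e6 : r ^ 6 = algebraMap F Kb (α ^ 3) := by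
    rw [map_pow, ← hr]
    ring
  rw [EF_sh, Ds_Sh, Sh_map]
  congr 1
  · rw [mul_pow, mul_assoc, h4, e4, map_mul]
  · rw [mul_pow, mul_assoc, h6, e6, map_mul]

/-- the twist is a form of the curve -/
theorem fm_twist {a b α : F} (hα : α ≠ 0) (h : Fm (Sh F a b)) :
    Fm (Sh F (α ^ 2 * a) (α ^ 3 * b)) := by
  obtain ⟨ι⟩ := Pool.Agent.Lib.MP_1a91b9_nuX.PH.exists_emb F
  let iA : Algebra F Kb := (ι : F →+* Kb).toAlgebra
  have iT : IsScalarTower K F Kb := IsScalarTower.of_algebraMap_eq fun x => (ι.commutes x).symm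
  obtain ⟨s, hs0, hs⟩ := fm_Ds h
  obtain ⟨r, hr⟩ := IsAlgClosed.exists_pow_nat_eq (algebraMap F Kb α) (n := 2) (by norm_num)
  have hr0 : r ≠ 0 := by
    rintro rfl
    rw [zero_pow two_ne_zero, eq_comm, map_eq_zero] at hr
    exact hα hr
  exact ⟨ι, Ds (r * s) (mul_ne_zero hr0 hs0), Ds_twist hs0 hr0 hr hs⟩

end

omit [CD] in
/-- the curve and its twist over the quadratic extension -/
theorem Ds_upS {F F' : Type*} [Field F] [Field F'] [Algebra F F'] {x : F'} {α : F} (hx0 : x ≠ 0)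
    (hx : x ^ 2 = algebraMap F F' α) (a b : F) :
    Ds x hx0 • (Sh F a b).map (algebraMap F F') =
      (Sh F (α ^ 2 * a) (α ^ 3 * b)).map (algebraMap F F') := by
  have e4 : x ^ 4 = algebraMap F F' (α ^ 2) := by
    rw [map_pow, ← hx]
    ring
  have e6 : x ^ 6 = algebraMap F F' (α ^ 3) := by
    rw [map_pow, ← hx]
    ring
  rw [Sh_map, Ds_Sh, Sh_map, e4, e6, map_mul, map_mul]

end

end Pool.Agent.Lib.MP_1a91b9_ntY
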