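import Pool.Agent.Lib.MP_1a91b9_ntY.Ram
import Pool.Agent.Lib.MP_1a91b9_ntY.Sho
import Pool.Agent.Lib.MP_1a91b9_ntM.Qd
import Pool.Agent.Lib.MP_1a91b9_ntM.F4

/-!
# The local factors of a form of the curve in a quadratic extension

`locStepS`: for a quadratic extension `F' = F(√α)` and a place `v` of `F`, the product over the places `w` of `F'` above `v` of the
factors `1 - ps'(w) X ^ f(w)` is `(1 - ps(v) X) (1 - pa(v) X)`, where `ps`, `pa` and `ps'` belong to the form `y² = x³ + a x + b` of the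
curve over `F`, its twist by `α` and the same curve over `F'`. No condition on the place.
-/

set_option autoImplicit false

namespace Pool.Agent.Lib.MP_1a91b9_ntY

open NumberField IsDedekindDomain WeierstrassCurve
  Pool.Agent.Lib.MP_1a91b9_nt Pool.Agent.Lib.MP_1a91b9_nuT
open Pool.Agent.Lib.MP_1a91b9_nuX.DB Pool.Agent.Lib.MP_1a91b9_nuX.GL
  Pool.Agent.Lib.MP_1a91b9_nuX.PG Pool.Agent.Lib.MP_1a91b9_nuX.PH
open Pool.Agent.Lib.MP_1a91b9_nuX Pool.Agent.Lib.MP_1a91b9_nuX.LG
open Pool.Agent.Lib.MP_1a91b9_ntM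

universe u

variable [CD]

section
variable {F F' : Type u} [Field F] [NumberField F] [Field F'] [NumberField F'] [Algebra F F']
  [Algebra K F] [Algebra K F'] [IsScalarTower K F F'] {x : F'}
  (hgen : ∀ z : F', ∃ b c : F, z = algebraMap F F' b + algebraMap F F' c * x)
  {a b α : F} (hα : α ≠ 0) (hx : x ^ 2 = algebraMap F F' α) (hW : Fm (Sh F a b))
include hgen hα hx hW

omit hgen in
/-- the embeddings -/
theorem quad_env : ∃ (_ : Algebra F Kb) (_ : Algebra F' Kb) (_ : IsScalarTower F F' Kb)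
    (_ : IsScalarTower K F Kb) (_ : IsScalarTower K F' Kb) (s r : Kb) (hs0 : s ≠ 0) (hr0 : r ≠ 0),
    r = algebraMap F' Kb x ∧ r ^ 2 = algebraMap F Kb α ∧
    Ds s hs0 • EF Kb = (Sh F a b).map (algebraMap F Kb) ∧
    Ds (r * s) (mul_ne_zero hr0 hs0) • EF Kb =
      (Sh F (α ^ 2 * a) (α ^ 3 * b)).map (algebraMap F Kb) := by
  obtain ⟨ι'⟩ := PH.exists_emb F'
  let iA' : Algebra F' Kb := (ι' : F' →+* Kb).toAlgebra
  have iT' : IsScalarTower K F' Kb := IsScalarTower.of_algebraMap_eq fun x => (ι'.commutes x).symm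
  let iA : Algebra F Kb := ((ι'.comp (IsScalarTower.toAlgHom K F F')) : F →+* Kb).toAlgebra
  have iT2 : IsScalarTower F F' Kb := IsScalarTower.of_algebraMap_eq fun x => rfl
  have iT : IsScalarTower K F Kb := IsScalarTower.of_algebraMap_eq fun x =>
    ((ι'.comp (IsScalarTower.toAlgHom K F F')).commutes x).symm
  obtain ⟨s, hs0, hs⟩ := fm_Ds hW
  have hr2 : (algebraMap F' Kb x) ^ 2 = algebraMap F Kb α := by
    rw [← map_pow, hx, ← IsScalarTower.algebraMap_apply F F' Kb]
  have hr0 : algebraMap F' Kb x ≠ 0 := by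
    intro h0
    rw [h0, zero_pow two_ne_zero, eq_comm, map_eq_zero] at hr2
    exact hα hr2
  exact ⟨iA, iA', iT2, iT, iT', s, algebraMap F' Kb x, hs0, hr0, rfl, hr2, hs,
    Ds_twist hs0 hr0 hr2 hs⟩

/-- the value of the character of the twist at an inert place -/
theorem hv_inertS (hE : EllK) {v : HeightOneSpectrum (𝓞 F)}
    (hv : ∀ w : HeightOneSpectrum (𝓞 F'), w.under (𝓞 F) = v → w.asIdeal.inertiaDeg (𝓞 F) = 2)
    (g1 : Gd (Sh F a b) v) (g2 : Gd (Sh F (α ^ 2 * a) (α ^ 3 * b)) v) :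
    Hv (Sh F (α ^ 2 * a) (α ^ 3 * b)) v = -Hv (Sh F a b) v := by
  classical
  obtain ⟨iA, iA', iT2, iT, iT', s, r, hs0, hr0, hr, hr2, hD1, hD2⟩ := quad_env hα hx hW
  have h1 := hv_frv hE hW g1 hD1
  refine hv_eq hE (fm_twist hα hW) g2 hD2 ?_
  refine frv_twist hs0 hr0 hr2 (fun V hV σ hσ => ?_) h1
  rw [hr]
  exact frob_neg hgen hx hv hV σ hσ

/-- **The local factors in a quadratic extension.** -/
theorem locStepS (hE : EllK) (hL : Module.finrank F F' = 2) :
    LocStep (psP (Sh F a b)) (psP (Sh F (α ^ 2 * a) (α ^ 3 * b)))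
      (psP ((Sh F a b).map (algebraMap F F'))) := by
  classical
  intro v s hs
  have hx0 : x ≠ 0 := by
    rintro rfl
    rw [zero_pow two_ne_zero, eq_comm, map_eq_zero] at hx
    exact hα hx
  have hWa : Fm (Sh F (α ^ 2 * a) (α ^ 3 * b)) := fm_twist hα hW
  have hup : Ds x hx0 • (Sh F a b).map (algebraMap F F') =
      (Sh F (α ^ 2 * a) (α ^ 3 * b)).map (algebraMap F F') := Ds_upS hx0 hx a b
  obtain ⟨iA, iA', iT2, iT, iT', s₀, r, hs0, hr0, hr, hr2, hD1, hD2⟩ := quad_env hα hx hW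
  have rb : ∀ w ∈ s, Gd (Sh F a b) v → Gd (Sh F (α ^ 2 * a) (α ^ 3 * b)) v →
      w.asIdeal.ramificationIdx (𝓞 F) = 1 := by
    intro w hw g1 g2
    rw [← (hs w).1 hw] at g1 g2
    exact ram_both hgen hx hs0 hr0 hr hD1 hD2 hL g1 g2
  have go : ∀ w ∈ s, Gd ((Sh F a b).map (algebraMap F F')) w →
      Gd (Sh F a b) v ∨ Gd (Sh F (α ^ 2 * a) (α ^ 3 * b)) v := by
    intro w hw hg
    have h1 := good_or hgen hx hs0 hr0 hr hD1 hD2 hg
    rw [(hs w).1 hw] at h1
    exact h1
  have u1 : ∀ w ∈ s, Gd (Sh F a b) v → Hv ((Sh F a b).map (algebraMap F F')) w =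
      Hv (Sh F a b) v ^ w.asIdeal.inertiaDeg (𝓞 F) := by
    intro w hw hg
    have h1 := (hs w).1 hw
    rw [← h1] at hg
    have h2 := hv_up hE hW w hg
    rw [h1] at h2
    exact h2
  have u2 : ∀ w ∈ s, Gd (Sh F (α ^ 2 * a) (α ^ 3 * b)) v →
      Hv ((Sh F a b).map (algebraMap F F')) w =
      Hv (Sh F (α ^ 2 * a) (α ^ 3 * b)) v ^ w.asIdeal.inertiaDeg (𝓞 F) := by
    intro w hw hg
    have h1 := (hs w).1 hw
    rw [← h1] at hg
    have h2 := hv_up hE hWa w hg
    rw [← hv_iso (Ds x hx0) hup w, h1] at h2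
    exact h2
  have d1 : ∀ w ∈ s, w.asIdeal.ramificationIdx (𝓞 F) = 1 →
      Gd ((Sh F a b).map (algebraMap F F')) w → Gd (Sh F a b) v := by
    intro w hw he hg
    have h1 := desc_unr hL he hg
    rw [(hs w).1 hw] at h1
    exact h1
  have d2 : ∀ w ∈ s, w.asIdeal.ramificationIdx (𝓞 F) = 1 →
      Gd ((Sh F a b).map (algebraMap F F')) w → Gd (Sh F (α ^ 2 * a) (α ^ 3 * b)) v := by
    intro w hw he hg
    have h0 := (gd_chg (Ds x hx0) hup w).1 hg
    have h1 := desc_unr hL he h0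
    rw [(hs w).1 hw] at h1
    exact h1
  simp only [psP_prime]
  by_cases g1 : Gd (Sh F a b) v
  · by_cases g2 : Gd (Sh F (α ^ 2 * a) (α ^ 3 * b)) v
    · rcases quad_fin hL v s hs with ⟨hc, hfe⟩ | ⟨w, hw, hf, he⟩ | ⟨w, hw, hf, he⟩
      · have h1 : ∀ w ∈ s, 1 - Polynomial.C (Hv ((Sh F a b).map (algebraMap F F')) w) *
            Polynomial.X ^ w.asIdeal.inertiaDeg (𝓞 F) =
            1 - Polynomial.C (Hv (Sh F a b) v) * Polynomial.X := by
          intro w hw
          rw [u1 w hw g1, (hfe w hw).1, pow_one, pow_one]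
        obtain ⟨w, hw⟩ := Finset.card_pos.1 (by rw [hc]; norm_num : 0 < s.card)
        have h2 : Hv (Sh F (α ^ 2 * a) (α ^ 3 * b)) v = Hv (Sh F a b) v := by
          have h3 := u1 w hw g1
          rw [u2 w hw g2, (hfe w hw).1, pow_one, pow_one] at h3
          exact h3
        rw [Finset.prod_congr rfl h1, Finset.prod_const, hc, h2, sq]
      · have hws : w ∈ s := by
          rw [hw]
          exact Finset.mem_singleton_self w
        have h2 : Hv (Sh F (α ^ 2 * a) (α ^ 3 * b)) v = -Hv (Sh F a b) v := by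
          refine hv_inertS hgen hα hx hW hE (fun w' hw' => ?_) g1 g2
          have h3 := (hs w').2 hw'
          rw [hw, Finset.mem_singleton] at h3
          rw [h3, hf]
        rw [hw, Finset.prod_singleton, u1 w hws g1, hf, h2, map_neg, map_pow]
        ring
      · have hws : w ∈ s := by
          rw [hw]
          exact Finset.mem_singleton_self w
        have h3 := rb w hws g1 g2
        omega
    · have h0 : ∀ w ∈ s, w.asIdeal.ramificationIdx (𝓞 F) ≠ 1 := by
        intro w hw he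
        refine g2 (d2 w hw he ?_)
        exact gd_up (F' := F') (W := Sh F a b) (w := w) (by rw [(hs w).1 hw]; exact g1)
      rcases quad_fin hL v s hs with ⟨hc, hfe⟩ | ⟨w, hw, hf, he⟩ | ⟨w, hw, hf, he⟩
      · obtain ⟨w, hw⟩ := Finset.card_pos.1 (by rw [hc]; norm_num : 0 < s.card)
        exact absurd (hfe w hw).2 (h0 w hw)
      · exact absurd he (h0 w (by rw [hw]; exact Finset.mem_singleton_self w))
      · rw [hw, Finset.prod_singleton, u1 w (by rw [hw]; exact Finset.mem_singleton_self w) g1, hf,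
          hv_bad g2, map_zero, zero_mul, sub_zero, mul_one, pow_one, pow_one]
  · by_cases g2 : Gd (Sh F (α ^ 2 * a) (α ^ 3 * b)) v
    · have h0 : ∀ w ∈ s, w.asIdeal.ramificationIdx (𝓞 F) ≠ 1 := by
        intro w hw he
        refine g1 (d1 w hw he ?_)
        have h1 := gd_up (F' := F') (W := Sh F (α ^ 2 * a) (α ^ 3 * b)) (w := w)
          (by rw [(hs w).1 hw]; exact g2)
        exact (gd_chg (Ds x hx0) hup w).2 h1
      rcases quad_fin hL v s hs with ⟨hc, hfe⟩ | ⟨w, hw, hf, he⟩ | ⟨w, hw, hf, he⟩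
      · obtain ⟨w, hw⟩ := Finset.card_pos.1 (by rw [hc]; norm_num : 0 < s.card)
        exact absurd (hfe w hw).2 (h0 w hw)
      · exact absurd he (h0 w (by rw [hw]; exact Finset.mem_singleton_self w))
      · rw [hw, Finset.prod_singleton, u2 w (by rw [hw]; exact Finset.mem_singleton_self w) g2, hf,
          hv_bad g1, map_zero, zero_mul, sub_zero, one_mul, pow_one, pow_one]
    · rw [hv_bad g1, hv_bad g2]
      have h0 : ∀ w ∈ s, 1 - Polynomial.C (Hv ((Sh F a b).map (algebraMap F F')) w) *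
            Polynomial.X ^ w.asIdeal.inertiaDeg (𝓞 F) = 1 := by
        intro w hw
        have h1 : ¬ Gd ((Sh F a b).map (algebraMap F F')) w := fun hg =>
          (go w hw hg).elim g1 g2
        rw [hv_bad h1, map_zero, zero_mul, sub_zero]
      rw [Finset.prod_congr rfl h0]
      simp

/-- **The L-series over a quadratic extension.** -/
theorem lconcl_quad (hE : EllK) (hL : Module.finrank F F' = 2) (h1 : LConcl (Sh F a b))
    (h2 : LConcl (Sh F (α ^ 2 * a) (α ^ 3 * b))) :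
    LConcl (Sh F' (algebraMap F F' a) (algebraMap F F' b)) := by
  rw [← Sh_map]
  exact lconcl_step (pdatP hE hW) (pdatP hE (fm_twist hα hW)) (pdatP hE (fm_up hW))
    (locStepS hgen hα hx hW hE hL) h1 h2

end

end Pool.Agent.Lib.MP_1a91b9_ntY
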