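import Pool.Agent.Lib.MP_1a91b9_nuX.PG.RamN
import Pool.Agent.Lib.MP_1a91b9_nuX.PG.Defs

/-!
# The criterion of Néron, Ogg and Shafarevich for a form of the curve

`nos_convW`: if the inertia acts trivially on the torsion (transported to the form `W`), then `W` has good reduction.
-/

set_option autoImplicit false

namespace Pool.Agent.Lib.MP_1a91b9_ntY

open NumberField IsDedekindDomain WeierstrassCurve Pool.Agent.Lib.MP_1a91b9_nuT
open Pool.Agent.Lib.MP_1a91b9_nuX Pool.Agent.Lib.MP_1a91b9_nuX.DB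
  Pool.Agent.Lib.MP_1a91b9_nuX.GL Pool.Agent.Lib.MP_1a91b9_nuX.PG

universe u

section
variable [CD]

private theorem nos_px (P : (EF Kb).toAffine.Point) : GM.px P = xc (F := Kb) P := by
  rcases P with _ | ⟨x, y, h⟩
  · rfl
  · rfl

private theorem nos_py (P : (EF Kb).toAffine.Point) : GM.py P = yc (F := Kb) P := by
  rcases P with _ | ⟨x, y, h⟩
  · rfl
  · rfl

omit [CD] in
private theorem nos_alg {F : Type*} [Field F] {u r s t x y X Y : F} (hu : u ≠ 0)
    (h1 : x = u ^ 2 * X + r) (h2 : y = u ^ 3 * Y + u ^ 2 * s * X + t) :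
    X = (x - r) / u ^ 2 ∧ Y = (y - s * (x - r) - t) / u ^ 3 := by
  rw [eq_div_iff (pow_ne_zero 2 hu), eq_div_iff (pow_ne_zero 3 hu), h1, h2]
  constructor <;> ring

variable [DecidableEq Kb]

/-- the points of the curve as the points of its form -/
theorem exists_ee {D : VariableChange Kb} {W₂ : WeierstrassCurve Kb} (hD : D • EF Kb = W₂) :
    ∃ ee : Pt Kb ≃+ W₂.toAffine.Point,
      ∀ P : Pt Kb, P ≠ 0 → GM.px (ee P) = cx D P ∧ GM.py (ee P) = cy D P := by
  obtain ⟨e, he⟩ := GM.exists_chg (EF Kb) D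
  obtain ⟨e', he'⟩ := point_transfer hD
  refine ⟨AddEquiv.trans (N := (D • EF Kb).toAffine.Point) e e', fun P hP => ?_⟩
  obtain ⟨h1, h2⟩ := he P hP
  rw [nos_px P] at h1
  rw [nos_py P] at h2
  obtain ⟨h3, h4⟩ := nos_alg D.u.ne_zero h1 h2
  exact ⟨(he' (e P)).1.trans h3, (he' (e P)).2.trans h4⟩

omit [CD] [DecidableEq Kb] in
/-- a finite Galois extension which contains a given finite set -/
theorem exists_M {F Ω : Type*} [Field F] [CharZero F] [Field Ω] [Algebra F Ω] [IsAlgClosed Ω]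
    [Algebra.IsAlgebraic F Ω] (S : Set Ω) (hS : S.Finite) :
    ∃ M : IntermediateField F Ω, FiniteDimensional F M ∧ IsGalois F M ∧ S ⊆ M := by
  have hfin : Finite S := hS
  have h1 : FiniteDimensional F (IntermediateField.adjoin F S) :=
    IntermediateField.finiteDimensional_adjoin fun x _ => Algebra.IsIntegral.isIntegral x
  have hcl : IsAlgClosure F Ω := ⟨inferInstance, inferInstance⟩
  have hn : Normal F Ω := IsAlgClosure.normal F Ω
  refine ⟨IntermediateField.normalClosure F (IntermediateField.adjoin F S) Ω, inferInstance, ?_, ?_⟩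
  · have h2 : Normal F (IntermediateField.normalClosure F (IntermediateField.adjoin F S) Ω) :=
      inferInstance
    exact { }
  · intro x hx
    exact IntermediateField.le_normalClosure _ (IntermediateField.subset_adjoin F S hx)

/-- two points over a Galois extension; the inertia fixes them -/
private theorem nos_two {F : Type u} [Field F] [NumberField F] [Algebra K F] [Algebra F Kb]
    [IsScalarTower K F Kb] {W : WeierstrassCurve F} {D : VariableChange Kb}
    (hD : D • EF Kb = W.map (algebraMap F Kb)) (hΔ : W.Δ ≠ 0) {w : HeightOneSpectrum (𝓞 F)}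
    {V : ValuationSubring Kb} (hV : Abv w V)
    (h : ∀ τ : Kb ≃ₐ[F] Kb, IsFr V 1 τ → ∀ φ : Pt Kb →+ Pt Kb, Trp D τ φ →
      ∀ T : Pt Kb, Tr V.valuation T → φ T = T) {P Q : Pt Kb} (hP : P ≠ 0) (hQ : Q ≠ 0)
    (hPT : Tr V.valuation P) (hQT : Tr V.valuation Q) :
    ∃ (M : Type) (_ : Field M) (_ : NumberField M) (_ : Algebra F M) (_ : DecidableEq M)
      (w' : HeightOneSpectrum (𝓞 M)) (P' Q' : (W.map (algebraMap F M)).toAffine.Point)
      (ρ : (W.map (algebraMap F M)).toAffine.Point →+ Pt Kb), IsGalois F M ∧ w'.under (𝓞 F) = w ∧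
      Function.Injective ρ ∧ ρ P' = P ∧ ρ Q' = Q ∧
      (∀ σ : Gal(M/F), (∀ y : 𝓞 M, σ • y - y ∈ w'.asIdeal) → GM.gact σ P' = P') ∧
      (∀ σ : Gal(M/F), (∀ y : 𝓞 M, σ • y - y ∈ w'.asIdeal) → GM.gact σ Q' = Q') := by
  have hFK : Algebra.IsAlgebraic F Kb := Algebra.IsAlgebraic.tower_top (K := K) F
  obtain ⟨M, hfd, hgal, hS⟩ := exists_M (F := F) (Ω := Kb)
    ({cx D P, cy D P, cx D Q, cy D Q} : Set Kb) (Set.toFinite _)
  have hnf : NumberField M := NumberField.of_module_finite F M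
  have hdec : DecidableEq M := Classical.decEq _
  obtain ⟨w', hw1, hw2⟩ := abv_under (M := M) hV
  obtain ⟨ee, hee⟩ := exists_ee (D := D) (W₂ := (W.map (algebraMap F M)).map (algebraMap M Kb)) (by
    rw [hD, WeierstrassCurve.map_map, ← IsScalarTower.algebraMap_eq])
  obtain ⟨f, hf, hfx, hfy⟩ := GM.exists_map (W.map (algebraMap F M)) Kb
  have hΔM : (W.map (algebraMap F M)).Δ ≠ 0 := by
    rw [WeierstrassCurve.map_Δ, Ne, map_eq_zero]
    exact hΔ
  have key : ∀ T : Pt Kb, T ≠ 0 → Tr V.valuation T → cx D T ∈ M → cy D T ∈ M →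
      ∃ T' : (W.map (algebraMap F M)).toAffine.Point, ee.symm (f T') = T ∧
        ∀ σ : Gal(M/F), (∀ y : 𝓞 M, σ • y - y ∈ w'.asIdeal) → GM.gact σ T' = T' := by
    intro T hT hTr hx hy
    have h0 : ee T ≠ 0 := fun h => hT ((map_eq_zero_iff ee ee.injective).1 h)
    obtain ⟨h1, h2⟩ := hee T hT
    obtain ⟨T', h3, h4, h5, -⟩ := GM.lift_pt hΔM h0 (x := ⟨cx D T, hx⟩) (y := ⟨cy D T, hy⟩)
      h1.symm h2.symm
    have h6 : f T' = ee T := by
      refine GM.p_ext (fun h => h3 (hf (h.trans (map_zero f).symm))) h0 ?_ ?_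
      · rw [hfx, h4, h1]
        rfl
      · rw [hfy, h5, h2]
        rfl
    refine ⟨T', by rw [h6, ee.symm_apply_apply], fun σ hσ => ?_⟩
    obtain ⟨τ, hτ1, hτ2⟩ := in_lift (k := F) hw2 hσ
    obtain ⟨φ, hφ⟩ := trp_exists hD τ
    have h7 := h τ hτ1 φ hφ T hTr
    obtain ⟨-, h8, h9⟩ := hφ T hT
    rw [h7] at h8 h9
    refine GM.p_ext (GM.gact_ne σ h3) h3 ?_ ?_
    · rw [GM.px_gact]
      show σ (GM.px T') = GM.px T'
      apply (algebraMap M Kb).injective
      rw [← hτ2, h4]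
      exact h8.symm
    · rw [GM.py_gact]
      show σ (GM.py T') = GM.py T'
      apply (algebraMap M Kb).injective
      rw [← hτ2, h5]
      exact h9.symm
  obtain ⟨P', p1, p2⟩ := key P hP hPT (hS (by simp)) (hS (by simp))
  obtain ⟨Q', q1, q2⟩ := key Q hQ hQT (hS (by simp)) (hS (by simp))
  exact ⟨M, inferInstance, hnf, inferInstance, hdec, w', P', Q',
    ee.symm.toAddMonoidHom.comp f, hgal, hw1, fun a b hab => hf (ee.symm.injective hab),
    p1, q1, p2, q2⟩

omit [DecidableEq Kb] in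
private theorem nos_dvd {n : ℕ} {a b : ℤ} (h : (n : 𝓞 K) ∣ (a : 𝓞 K) + (b : 𝓞 K) * ta) :
    (n : ℤ) ∣ a ∧ (n : ℤ) ∣ b := by
  obtain ⟨d, hd⟩ := h
  obtain ⟨x, y, rfl⟩ := exists_coords d
  have h1 : (a : 𝓞 K) + (b : 𝓞 K) * ta =
      (((n : ℤ) * x : ℤ) : 𝓞 K) + (((n : ℤ) * y : ℤ) : 𝓞 K) * ta := by
    push_cast
    linear_combination hd
  obtain ⟨h2, h3⟩ := coords_inj h1
  exact ⟨⟨x, h2⟩, ⟨y, h3⟩⟩

private theorem nos_ne {n : ℕ} {R : Pt Kb} (hR : Ord (n : 𝓞 K) R) {c : 𝓞 K} {a b : ℤ}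
    (hc : c = (a : 𝓞 K) + (b : 𝓞 K) * ta) (h : ¬ (n : ℤ) ∣ a ∨ ¬ (n : ℤ) ∣ b) :
    sm Kb c R ≠ 0 := by
  intro h0
  have h1 := (hR c).1 h0
  rw [hc] at h1
  obtain ⟨h2, h3⟩ := nos_dvd h1
  rcases h with h | h
  · exact h h2
  · exact h h3

/-- **The criterion of Néron, Ogg and Shafarevich** for a form of the curve. -/
theorem nos_convW {F : Type u} [Field F] [NumberField F] [Algebra K F] [Algebra F Kb]
    [IsScalarTower K F Kb] {W : WeierstrassCurve F} {D : VariableChange Kb}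
    (hD : D • EF Kb = W.map (algebraMap F Kb)) {w : HeightOneSpectrum (𝓞 F)}
    {V : ValuationSubring Kb} (hV : Abv w V)
    (h : ∀ τ : Kb ≃ₐ[F] Kb, IsFr V 1 τ → ∀ φ : Pt Kb →+ Pt Kb, Trp D τ φ →
      ∀ T : Pt Kb, Tr V.valuation T → φ T = T) : Gd W w := by
  have hΔ : W.Δ ≠ 0 := by
    intro h0
    have h1 := congrArg WeierstrassCurve.Δ hD
    rw [WeierstrassCurve.map_Δ, h0, map_zero, variableChange_Δ] at h1
    have h2 : (EF Kb).Δ ≠ 0 := by
      show ((E K).map (algebraMap K Kb)).Δ ≠ 0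
      rw [WeierstrassCurve.map_Δ, Ne, map_eq_zero]
      have e : (E K).Δ = -16 * (4 * cA K ^ 3 + 27 * cB K ^ 2) := by
        simp only [WeierstrassCurve.Δ, WeierstrassCurve.b₂, WeierstrassCurve.b₄,
          WeierstrassCurve.b₆, WeierstrassCurve.b₈, E]
        ring
      rw [e]
      exact mul_ne_zero (by norm_num) (dsc_ne (F := K))
    rcases mul_eq_zero.1 h1 with h3 | h3
    · exact absurd h3 (pow_ne_zero 12 (D.u⁻¹ : Kbˣ).ne_zero)
    · exact h2 h3
  have hj := j_intW hD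
  by_cases h3 : V.valuation (3 : Kb) = 1
  · have h30 : ((3 : ℕ) : 𝓞 K) ≠ 0 := Nat.cast_ne_zero.2 (by norm_num)
    obtain ⟨R, hR⟩ := exists_ord h30
    have hR3 : 3 • R = 0 := by
      rw [← sm_nat]
      exact (hR _).2 dvd_rfl
    have hRT : Tr V.valuation R := ⟨3, h3, hR3⟩
    have hR0 : R ≠ 0 := by
      have h1 := nos_ne hR (c := 1) (a := 1) (b := 0) (by push_cast; ring) (Or.inl (by norm_num))
      rwa [sm_one] at h1
    obtain ⟨M, _, _, _, _, w', P', Q', ρ, hgal, hw, hρ, hP', hQ', iP, iQ⟩ :=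
      nos_two hD hΔ hV h hR0 (nos_ne hR (c := ta) (a := 0) (b := 1) (by push_cast; ring)
        (Or.inr (by norm_num))) hRT (tr_sm hRT ta)
    subst hw
    have h31 : (w'.under (𝓞 F)).valuation F 3 = 1 := by
      rw [← abv_eq hV, map_ofNat]
      exact h3
    refine GM.conv_three (M := M) (w := w') (P := P') (Q := Q') hΔ (hj _) h31 ?_ ?_ ?_ ?_ ?_ ?_
      iP iQ
    · rintro rfl
      rw [map_zero] at hP'
      exact hR0 hP'.symm
    · rintro rfl
      rw [map_zero] at hQ'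
      exact nos_ne hR (c := ta) (a := 0) (b := 1) (by push_cast; ring) (Or.inr (by norm_num))
        hQ'.symm
    · apply hρ
      rw [map_nsmul, hP', hR3, map_zero]
    · apply hρ
      rw [map_nsmul, hQ', ← map_nsmul, hR3, map_zero, map_zero]
    · rintro rfl
      refine nos_ne hR (c := ta - 1) (a := -1) (b := 1) (by push_cast; ring)
        (Or.inr (by norm_num)) ?_
      rw [sm_sub, sm_one, ← hQ', hP', sub_self]
    · rintro rfl
      refine nos_ne hR (c := ta + 1) (a := 1) (b := 1) (by push_cast; ring)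
        (Or.inr (by norm_num)) ?_
      rw [sm_add, sm_one, ← hQ', map_neg, hP', neg_add_cancel]
  · have h3' : V.valuation (3 : Kb) < 1 := lt_of_le_of_ne GM.v_three_le h3
    have h2 : V.valuation (2 : Kb) = 1 := by
      refine le_antisymm GM.v_two_le ?_
      have h4 := V.valuation.map_sub (3 : Kb) 2
      have h5 : (3 : Kb) - 2 = 1 := by norm_num
      rw [h5, map_one] at h4
      rcases le_max_iff.1 h4 with h6 | h6
      · exact absurd h6 (not_le.2 h3')
      · exact h6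
    have hn : V.valuation ((4 : ℕ) : Kb) = 1 := by
      have h4 : ((4 : ℕ) : Kb) = 2 * 2 := by norm_num
      rw [h4, map_mul, h2, one_mul]
    have h40 : ((4 : ℕ) : 𝓞 K) ≠ 0 := Nat.cast_ne_zero.2 (by norm_num)
    obtain ⟨R, hR⟩ := exists_ord h40
    have hR4 : 4 • R = 0 := by
      rw [← sm_nat]
      exact (hR _).2 dvd_rfl
    have hRT : Tr V.valuation R := ⟨4, hn, hR4⟩
    have hR0 : R ≠ 0 := by
      have h1 := nos_ne hR (c := 1) (a := 1) (b := 0) (by push_cast; ring) (Or.inl (by norm_num))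
      rwa [sm_one] at h1
    have hT0 : sm Kb (2 * ta) R ≠ 0 := nos_ne hR (c := 2 * ta) (a := 0) (b := 2)
      (by push_cast; ring) (Or.inr (by norm_num))
    obtain ⟨M, _, _, _, _, w', P', Q', ρ, hgal, hw, hρ, hP', hQ', iP, iQ⟩ :=
      nos_two hD hΔ hV h hR0 hT0 hRT (tr_sm hRT (2 * ta))
    subst hw
    have h21 : (w'.under (𝓞 F)).valuation F 2 = 1 := by
      rw [← abv_eq hV, map_ofNat]
      exact h2
    have h22 : ∀ X : Pt Kb, 2 • X = sm Kb 2 X := fun X => by
      rw [← sm_nat]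
      rfl
    refine GM.conv_two (M := M) (w := w') (Q := P') (T := Q') hΔ (hj _) h21 ?_ ?_ ?_ ?_ ?_ iP iQ
    · rintro rfl
      rw [map_zero] at hQ'
      exact hT0 hQ'.symm
    · apply hρ
      rw [map_nsmul, hQ', h22, ← sm_mul, ← mul_assoc]
      have h5 : (2 * 2 * ta : 𝓞 K) = ta * ((4 : ℕ) : 𝓞 K) := by push_cast; ring
      rw [h5, sm_mul, (hR _).2 dvd_rfl, map_zero, map_zero]
    · intro h6
      have h7 := congrArg ρ h6
      rw [map_nsmul, hP', map_zero, h22] at h7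
      exact nos_ne hR (c := 2) (a := 2) (b := 0) (by push_cast; ring) (Or.inl (by norm_num)) h7
    · apply hρ
      rw [map_nsmul, hP', hR4, map_zero]
    · intro h6
      have h7 := congrArg ρ h6
      rw [map_nsmul, hP', hQ', h22] at h7
      refine nos_ne hR (c := 2 * ta - 2) (a := -2) (b := 2) (by push_cast; ring)
        (Or.inr (by norm_num)) ?_
      rw [sm_sub, h7, sub_self]

end

end Pool.Agent.Lib.MP_1a91b9_ntY
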