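import Pool.Agent.Lib.MP_1a91b9_ntY.Fms
import Pool.Agent.Lib.MP_1a91b9_ntQ.Base

/-!
# The curves `y² = x³ + a d² x` over the multiquadratic extensions of `ℚ(i)`
-/

set_option autoImplicit false

namespace Pool.Agent.Lib.MP_1a91b9_ntY

open NumberField WeierstrassCurve Pool.Agent.Lib.MP_1a91b9_nuT
open Pool.Agent.Lib.MP_1a91b9_nuX.LG (LConcl)
open Pool.Agent.Lib.MP_1a91b9_nuX.GL (EllK)
open Pool.Agent.Lib.MP_1a91b9_nuX.PH (Fm)
open Pool.Agent.Lib.MP_1a91b9_ntN.G (MQT)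
open Pool.Agent.Lib.MP_1a91b9_ntQ

theorem ellK4' : EllK := ellK_cm (Or.inr (Or.inl ⟨rfl, rfl⟩))

theorem fm_K4 {a : K4} (ha : a ≠ 0) : Fm (Sh K4 a 0) := fm_j1728 rfl ha

/-- the curve `y² = x³ + a d² x` over `F` -/
noncomputable def Wa4 (F : Type*) [Field F] [Algebra K4 F] (a : K4) (d : 𝓞 K4) :
    WeierstrassCurve F := ⟨0, 0, 0, algebraMap K4 F ((d : K4) ^ 2 * a), 0⟩

theorem Wa4_eq (F : Type*) [Field F] [Algebra K4 F] (a : K4) (d : 𝓞 K4) :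
    Wa4 F a d = Tdj F a 0 d := by
  rw [Tdj_def, mul_zero, map_zero]
  rfl

/-- **From `K = ℚ(i)` to a multiquadratic extension of `K`**, the curves `y² = x³ + a d² x`. -/
theorem chain4 {a : K4} (ha : a ≠ 0) {F : Type} [Field F] [NumberField F] [Algebra K4 F]
    {A : List (𝓞 K4)} (h : MQT K4 F A) (d : 𝓞 K4) (hd : d ≠ 0)
    (hA : ∀ e ∈ A, LConcl (Wa4 K4 a (e * d)) ∧ Finite (Wa4 K4 a (e * d)).toAffine.Point) :
    LConcl (Wa4 F a d) ∧ Finite (Wa4 F a d).toAffine.Point := by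
  rw [Wa4_eq]
  refine chainJ ellK4' (fm_K4 ha) h d hd fun e he => ?_
  rw [← Wa4_eq]
  exact hA e he

end Pool.Agent.Lib.MP_1a91b9_ntY
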