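import Pool.Agent.Lib.MP_1a91b9_ntY.Nos
import Pool.Agent.Lib.MP_1a91b9_ntM.Tw
import Pool.Agent.Lib.MP_1a91b9_nuX.GL.DescU

/-!
# The reduction of a curve and its twist in a quadratic extension

`F' = F(x)`, `x ^ 2 = α`; `W` is a curve over `F`, `Wa` its twist by `α`. `ram_both`: if both have good reduction at `v`, then `F'/F` is
unramified at `v`. `good_or`: if `W` has good reduction over `F'` at `w`, then `W` or `Wa` has good reduction at the place below `w`.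
-/

set_option autoImplicit false

namespace Pool.Agent.Lib.MP_1a91b9_ntY

open NumberField IsDedekindDomain WeierstrassCurve Pool.Agent.Lib.MP_1a91b9_nuT
open Pool.Agent.Lib.MP_1a91b9_nuX Pool.Agent.Lib.MP_1a91b9_nuX.DB
  Pool.Agent.Lib.MP_1a91b9_nuX.GL Pool.Agent.Lib.MP_1a91b9_nuX.PG
open Pool.Agent.Lib.MP_1a91b9_ntM

universe u

variable [CD] [DecidableEq Kb]

section
variable {F : Type u} [Field F] [NumberField F] [Algebra F Kb] {s r : Kb}

omit [NumberField F] in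
/-- the transport of an automorphism which fixes `√α` -/
theorem trp_pos (hs0 : s ≠ 0) (hr0 : r ≠ 0) (σ : Kb ≃ₐ[F] Kb) (hσ : σ r = r)
    {φ : Pt Kb →+ Pt Kb} (h : Trp (Ds (r * s) (mul_ne_zero hr0 hs0)) σ φ) :
    Trp (Ds s hs0) σ φ := by
  intro T hT
  obtain ⟨h1, h2, h3⟩ := h T hT
  rw [cx_Ds, cx_Ds, mul_pow, map_mul, map_mul, map_pow, hσ] at h2
  rw [cy_Ds, cy_Ds, mul_pow, map_mul, map_mul, map_pow, hσ] at h3
  refine ⟨h1, ?_, ?_⟩
  · rw [cx_Ds, cx_Ds, map_mul]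
    refine mul_left_cancel₀ (pow_ne_zero 2 hr0) ?_
    linear_combination h2
  · rw [cy_Ds, cy_Ds, map_mul]
    refine mul_left_cancel₀ (pow_ne_zero 3 hr0) ?_
    linear_combination h3

end

/-- a point of odd prime order -/
theorem exists_odd {P : HeightOneSpectrum (𝓞 K)} {V : ValuationSubring Kb} (hV : Abv P V) :
    ∃ T : Pt Kb, Tr V.valuation T ∧ T ≠ -T := by
  obtain ⟨l, hl, h5, hv⟩ := exists_prime hV 5
  obtain ⟨T, hT0, hT⟩ := exists_pt_prime hl
  refine ⟨T, ⟨l, hv, hT⟩, fun h => hT0 ?_⟩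
  have h2 : 2 • T = 0 := by
    rw [two_nsmul]
    nth_rewrite 1 [h]
    exact neg_add_cancel T
  have h3 := addOrderOf_dvd_iff_nsmul_eq_zero.2 h2
  have h4 := addOrderOf_dvd_iff_nsmul_eq_zero.2 hT
  have h6 : Nat.Coprime 2 l := (Nat.coprime_primes Nat.prime_two hl).2 (by omega)
  have h7 : addOrderOf T = 1 := Nat.dvd_one.1 (h6 ▸ Nat.dvd_gcd h3 h4)
  exact AddMonoid.addOrderOf_eq_one_iff.1 h7

section
variable {F F' : Type u} [Field F] [NumberField F] [Field F'] [NumberField F'] [Algebra F F']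
  [Algebra K F] [Algebra K F'] [IsScalarTower K F F'] [Algebra F' Kb] [Algebra F Kb]
  [IsScalarTower F F' Kb] [IsScalarTower K F Kb] [IsScalarTower K F' Kb] {x : F'}
  (hgen : ∀ z : F', ∃ b c : F, z = algebraMap F F' b + algebraMap F F' c * x)
  {α : F} (hx : x ^ 2 = algebraMap F F' α) {s r : Kb} (hs0 : s ≠ 0) (hr0 : r ≠ 0)
  (hr : r = algebraMap F' Kb x) {W Wa : WeierstrassCurve F}
  (hD : Ds s hs0 • EF Kb = W.map (algebraMap F Kb))
  (hDa : Ds (r * s) (mul_ne_zero hr0 hs0) • EF Kb = Wa.map (algebraMap F Kb))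
include hgen hx hr hD hDa

omit [DecidableEq Kb] [NumberField F] [NumberField F'] [Algebra K F] [Algebra K F']
  [IsScalarTower K F F'] [IsScalarTower K F Kb] [IsScalarTower K F' Kb] hgen hD hDa in
private theorem ram_r2 : r ^ 2 = algebraMap F Kb α := by
  rw [hr, ← map_pow, hx, ← IsScalarTower.algebraMap_apply F F' Kb]

omit [DecidableEq Kb] [NumberField F] [NumberField F'] [Algebra K F] [Algebra K F']
  [IsScalarTower K F F'] [IsScalarTower K F Kb] [IsScalarTower K F' Kb] hgen hD hDa in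
private theorem ram_pm2 (σ : Kb ≃ₐ[F] Kb) : σ r = r ∨ σ r = -r := by
  have h1 : σ r ^ 2 = r ^ 2 := by
    rw [← map_pow, ram_r2 hx hr, AlgEquiv.commutes]
  exact sq_eq_sq_iff_eq_or_eq_neg.1 h1

omit [IsScalarTower K F F'] in
/-- **A curve and its twist with good reduction**: the extension is unramified. -/
theorem ram_both (hL : Module.finrank F F' = 2) {w : HeightOneSpectrum (𝓞 F')}
    (g1 : Gd W (w.under (𝓞 F))) (g2 : Gd Wa (w.under (𝓞 F))) :
    w.asIdeal.ramificationIdx (𝓞 F) = 1 := by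
  have hquad : Algebra.IsQuadraticExtension F F' := ⟨hL⟩
  have hgal : IsGalois F F' := inferInstance
  have hp : w.asIdeal.IsPrime := w.isPrime
  have hfin1 : Finite (𝓞 F ⧸ w.asIdeal.under (𝓞 F)) :=
    Ideal.finiteQuotientOfFreeOfNeBot _ (w.under (𝓞 F)).ne_bot
  have hA2 : Algebra.IsAlgebraic F Kb := Algebra.IsAlgebraic.tower_top (K := K) F
  have h1 := Ideal.card_inertia_eq_ramificationIdxIn (G := Gal(F'/F)) (w.asIdeal.under (𝓞 F))
    w.asIdeal
  rw [Ideal.ramificationIdxIn_eq_ramificationIdx _ w.asIdeal Gal(F'/F)] at h1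
  have h3 : w.asIdeal.inertia Gal(F'/F) = ⊥ := by
    rw [eq_bot_iff]
    intro σ hσ
    rw [Subgroup.mem_bot]
    obtain ⟨V, hV⟩ := exists_abv (Ω := Kb) w
    obtain ⟨τ, hτ, hτx⟩ := in_lift (k := F) hV (σ := σ) hσ
    have hVF : Abv (w.under (𝓞 F)) V := abv_res hV
    have h4 : τ r = r := by
      rcases ram_pm2 hx hr τ with h5 | h5
      · exact h5
      · exfalso
        obtain ⟨φ, hφ⟩ := trp_exists hDa τ
        have hφ' := trp_twist hs0 hr0 (ram_r2 hx hr) τ h5 hφ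
        obtain ⟨T, hT, hT2⟩ := exists_odd (abv_res (k := K) hV)
        have e1 := trp_in hDa hVF g2 hτ hφ (tr_ta hT)
        have e2 := trp_in hD hVF g1 hτ hφ' (tr_ta hT)
        have e3 : (-φ) T = -(φ T) := rfl
        rw [e3, e1] at e2
        exact hT2 e2.symm
    have h5 : σ x = x := by
      apply (algebraMap F' Kb).injective
      rw [← hτx, ← hr, h4]
    refine AlgEquiv.ext fun z => ?_
    obtain ⟨b, c, rfl⟩ := hgen z
    rw [map_add, map_mul, AlgEquiv.commutes, AlgEquiv.commutes, h5]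
    rfl
  rw [← h1, h3]
  exact Subgroup.card_bot

omit [IsScalarTower K F F'] in
/-- **Good reduction over a quadratic extension**: the curve or its twist has good reduction. -/
theorem good_or {w : HeightOneSpectrum (𝓞 F')} (hg : Gd (W.map (algebraMap F F')) w) :
    Gd W (w.under (𝓞 F)) ∨ Gd Wa (w.under (𝓞 F)) := by
  have hA2 : Algebra.IsAlgebraic F Kb := Algebra.IsAlgebraic.tower_top (K := K) F
  obtain ⟨V, hV⟩ := exists_abv (Ω := Kb) w
  have hVF : Abv (w.under (𝓞 F)) V := abv_res hV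
  -- the automorphisms which fix `F'`
  have hfix : ∀ τ : Kb ≃ₐ[F] Kb, IsFr V 1 τ → τ r = r → ∀ φ : Pt Kb →+ Pt Kb,
      Trp (Ds s hs0) τ φ → ∀ T : Pt Kb, Tr V.valuation T → φ T = T := by
    intro τ hτ hτr φ hφ T hT
    have h1 : ∀ z : F', τ (algebraMap F' Kb z) = algebraMap F' Kb z := by
      intro z
      obtain ⟨b, c, rfl⟩ := hgen z
      rw [map_add, map_mul, map_add, map_mul, ← hr, hτr, ← IsScalarTower.algebraMap_apply F F' Kb,
        ← IsScalarTower.algebraMap_apply F F' Kb, AlgEquiv.commutes, AlgEquiv.commutes]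
    let τ' : Kb ≃ₐ[F'] Kb := AlgEquiv.ofRingEquiv (f := τ.toRingEquiv) h1
    have h2 : IsFr V 1 τ' := hτ
    have h3 : Trp (Ds s hs0) τ' φ := hφ
    exact trp_in (md_up (F := F') hD) hV hg h2 h3 (tr_ta hT)
  by_cases h : ∀ τ : Kb ≃ₐ[F] Kb, IsFr V 1 τ → ∀ φ : Pt Kb →+ Pt Kb, Trp (Ds s hs0) τ φ →
      ∀ T : Pt Kb, Tr V.valuation T → φ T = T
  · exact Or.inl (nos_convW hD hVF h)
  · right
    push Not at h
    obtain ⟨τ₁, hτ₁, φ₁, hφ₁, T₁, hT₁, hne⟩ := h
    have hr₁ : τ₁ r = -r := by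
      rcases ram_pm2 hx hr τ₁ with h5 | h5
      · exact absurd (hfix τ₁ hτ₁ h5 φ₁ hφ₁ T₁ hT₁) hne
      · exact h5
    have hsq : ∀ z : F', τ₁ (τ₁ (algebraMap F' Kb z)) = algebraMap F' Kb z := by
      intro z
      obtain ⟨b, c, rfl⟩ := hgen z
      rw [map_add, map_mul, ← hr, ← IsScalarTower.algebraMap_apply F F' Kb,
        ← IsScalarTower.algebraMap_apply F F' Kb, map_add, map_mul, AlgEquiv.commutes,
        AlgEquiv.commutes, hr₁, map_add, map_mul, map_neg, hr₁, AlgEquiv.commutes,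
        AlgEquiv.commutes, neg_neg]
    have hpm : ∀ T : Pt Kb, Tr V.valuation T → φ₁ T = T ∨ φ₁ T = -T := fun T hT =>
      ram_pm hD hV hg hτ₁ hsq hφ₁ hT
    have h6 : φ₁ T₁ = -T₁ := (hpm T₁ hT₁).resolve_left hne
    have hneg : ∀ T : Pt Kb, Tr V.valuation T → φ₁ T = -T := by
      have h7 := af_sign (V := V) (τ := -φ₁) (fun T hT => by
        have e3 : (-φ₁) T = -(φ₁ T) := rfl
        rw [e3]
        rcases hpm T hT with h8 | h8
        · exact Or.inr (by rw [h8])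
        · exact Or.inl (by rw [h8, neg_neg])) hT₁ (by
          have e3 : (-φ₁) T₁ = -(φ₁ T₁) := rfl
          rw [e3, h6, neg_neg]) (by
          intro h8
          apply hne
          rw [h6]
          rw [two_nsmul] at h8
          exact neg_eq_of_add_eq_zero_left h8)
      intro T hT
      have e3 : (-φ₁) T = -(φ₁ T) := rfl
      have h8 := h7 T hT
      rw [e3] at h8
      rw [← neg_neg (φ₁ T), h8]
    refine nos_convW hDa hVF fun τ₂ hτ₂ φ₂ hφ₂ T hT => ?_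
    rcases ram_pm2 hx hr τ₂ with h5 | h5
    · exact hfix τ₂ hτ₂ h5 φ₂ (trp_pos hs0 hr0 τ₂ h5 hφ₂) T hT
    · have hψ := trp_twist hs0 hr0 (ram_r2 hx hr) τ₂ h5 hφ₂
      obtain ⟨φ', hφ'⟩ := trp_exists hD τ₁⁻¹
      have hinv : ∀ X : Pt Kb, φ₁ (φ' X) = X := trp_inv hφ₁ hφ' fun z => τ₁.apply_symm_apply z
      have hc0 : Trp (Ds s hs0) (fun z => τ₁⁻¹ (τ₂ z)) (φ'.comp (-φ₂)) := trp_comp hφ' hψ
      have hc : Trp (Ds s hs0) (τ₁⁻¹ * τ₂ : Kb ≃ₐ[F] Kb) (φ'.comp (-φ₂)) := hc0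
      have hF : IsFr V 1 (τ₁⁻¹ * τ₂ : Kb ≃ₐ[F] Kb) := by
        intro z hz
        have e1 : τ₁ ((τ₁⁻¹ * τ₂ : Kb ≃ₐ[F] Kb) z - z ^ 1) = (τ₂ z - z ^ 1) - (τ₁ z - z ^ 1) := by
          have e2 : τ₁ ((τ₁⁻¹ * τ₂ : Kb ≃ₐ[F] Kb) z) = τ₂ z := τ₁.apply_symm_apply _
          rw [map_sub, e2, pow_one]
          ring
        rw [← fr_val hVF hτ₁, e1]
        exact (V.valuation.map_sub _ _).trans_lt (max_lt (hτ₂ z hz) (hτ₁ z hz))
      have hrr : (τ₁⁻¹ * τ₂ : Kb ≃ₐ[F] Kb) r = r := by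
        have e1 : (τ₁⁻¹ * τ₂ : Kb ≃ₐ[F] Kb) r = τ₁⁻¹ (τ₂ r) := rfl
        have e2 : τ₁⁻¹ (τ₁ r) = r := τ₁.symm_apply_apply r
        rw [e1, h5, ← hr₁, e2]
      have h8 := hfix _ hF hrr _ hc T hT
      have h9 : φ' (-(φ₂ T)) = T := h8
      have h10 := congrArg φ₁ h9
      rw [hinv, hneg T hT] at h10
      exact neg_inj.1 h10

end

end Pool.Agent.Lib.MP_1a91b9_ntY
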